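import Pool.Agent.H4.PX.Tr

set_option autoImplicit false

/-! The transfer principle for a general family of runs of good zeros. -/

open Filter Topology MeasureTheory Complex

namespace Pool.Agent.H4.MT

open Pool.Agent.Q97.UM Pool.Agent.H4.IX Pool.Agent.H4.PX
open Pool.Agent.Q32.Idx (N)

noncomputable section

open Classical in
/-- **the transfer principle** -/
theorem avg (k : ℕ) {c d : ℝ} (hc : 0 < c) : ∃ θ c₁ : ℝ, 0 < θ ∧ θ ≤ 1 / 40 ∧ 0 < c₁ ∧ ∀ᶠ T : ℝ in atTop,
    ∀ G : Finset ℕ, (∀ n ∈ G, ∀ j < k, n + j ∈ gdi d T) → (∀ n ∈ G, n ∈ In T) → ∀ M : ℕ, (M : ℝ) ≤ T ^ θ → ∀ b : ℕ → ℂ,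
      c * Lam T M b ≤ ∑ n ∈ G, w M b (ord n) →
      ∀ P : ℝ → Prop, ∑ s ∈ (ZI d T).filter (fun s => ¬ P s.im), w M b s.im ≤ c₁ * Lam T M b →
      ∀ v : ℕ → ℝ, (∀ n ∈ G, (∀ j < k, P (ord (n + j))) → ∃ j < k, w M b (ord (n + j)) ≤ v n) →
      c₁ * Lam T M b ≤ ∑ n ∈ G.filter (fun n => ∀ j < k, P (ord (n + j))), v n := by
  obtain ⟨θ, hθ⟩ : ∃ θ, θ = min (1 / 40) (c / (16 * (k + 1) ^ 2)) := ⟨_, rfl⟩
  have hk0 : (0 : ℝ) ≤ k := Nat.cast_nonneg k
  have hθ0 : 0 < θ := by rw [hθ]; positivity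
  have hθa : θ ≤ 1 / 40 := by rw [hθ]; exact min_le_left _ _
  have hθb : θ * (k + 1) ^ 2 ≤ c / 16 := by
    have : θ ≤ c / (16 * (k + 1) ^ 2) := by rw [hθ]; exact min_le_right _ _
    rw [le_div_iff₀ (by positivity)] at this
    linarith
  refine ⟨θ, c / (2 * (k + 1)), hθ0, hθa, by positivity, ?_⟩
  filter_upwards [var_w hθ0 hθa, eventually_ge_atTop (1 : ℝ)] with T hvar hT G hG hGI M hM b hmass P hP v hv
  have hL := Lam_nonneg hT M b
  obtain ⟨W, hW⟩ : ∃ W : ℕ → ℝ, W = fun n => w M b (ord n) := ⟨_, rfl⟩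
  have hW0 : ∀ n, 0 ≤ W n := fun n => by rw [hW]; exact w_nonneg _ _ _
  obtain ⟨Lm, hLm⟩ : ∃ Lm, Lm = Lam T M b := ⟨_, rfl⟩
  rw [← hLm] at hL hmass hP ⊢
  -- the variation
  have hIn : ∀ n ∈ G, ∀ j < k, n + j ∈ In T := by
    intro n hn j hj
    obtain ⟨s, hs, hsn⟩ := hG n hn j hj
    rw [← hsn]
    exact gdi_In hT hs
  have hv1 : ∀ j < k, ∑ n ∈ G, |W (n + j) - W n| ≤ k * (4 * θ * Lm) := by
    intro j hj
    have h1 := hvar M hM b j
    have h2 : ∑ n ∈ G, |W (n + j) - W n| ≤ ∑ n ∈ (In T).filter (fun n => n + j ∈ In T), |w M b (ord (n + j)) - w M b (ord n)| := by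
      rw [hW]
      refine Finset.sum_le_sum_of_subset_of_nonneg ?_ fun n _ _ => abs_nonneg _
      intro n hn
      exact Finset.mem_filter.2 ⟨hGI n hn, hIn n hn j hj⟩
    refine h2.trans (h1.trans ?_)
    have h3 : (j : ℝ) ≤ k := by exact_mod_cast hj.le
    have h4 : 0 ≤ 4 * θ * (Real.log T * (T * N2 M b)) := by
      have : 0 ≤ Real.log T * (T * N2 M b) := by
        have e : Real.log T * (T * N2 M b) = Lm := by rw [hLm]; rfl
        rw [e]; exact hL
      positivity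
    have e : 4 * θ * Lm = 4 * θ * (Real.log T * (T * N2 M b)) := by rw [hLm]; rfl
    rw [e]
    exact mul_le_mul_of_nonneg_right h3 h4
  have hvk : ∑ j ∈ Finset.range k, ∑ n ∈ G, |W (n + j) - W n| ≤ c / 4 * Lm := by
    have h1 : ∑ j ∈ Finset.range k, ∑ n ∈ G, |W (n + j) - W n| ≤ ∑ _j ∈ Finset.range k, k * (4 * θ * Lm) :=
      Finset.sum_le_sum fun j hj => hv1 j (Finset.mem_range.1 hj)
    rw [Finset.sum_const, Finset.card_range, nsmul_eq_mul] at h1
    refine h1.trans ?_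
    have h2 : (k : ℝ) * (k * (4 * θ * Lm)) = 4 * (θ * (k : ℝ) ^ 2) * Lm := by ring
    rw [h2]
    refine mul_le_mul_of_nonneg_right ?_ hL
    have h3 : θ * (k : ℝ) ^ 2 ≤ θ * (k + 1) ^ 2 := mul_le_mul_of_nonneg_left (pow_le_pow_left₀ hk0 (by linarith) 2) hθ0.le
    linarith
  -- the bad sums
  have hbad : ∀ j < k, ∑ n ∈ G.filter (fun n => ¬ P (ord (n + j))), W (n + j) ≤ c / (2 * (k + 1)) * Lm := by
    intro j hj
    have h1 : ∑ n ∈ G.filter (fun n => ¬ P (ord (n + j))), W (n + j) =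
        ∑ m ∈ (G.filter (fun n => ¬ P (ord (n + j)))).image (fun n => n + j), W m := by
      rw [Finset.sum_image]
      intro a _ b _ h
      simpa using h
    rw [h1]
    have h2 := good_sum (d := d) hT P (w M b)
    refine le_trans ?_ hP
    rw [← h2, hW]
    refine Finset.sum_le_sum_of_subset_of_nonneg ?_ fun n _ _ => w_nonneg _ _ _
    intro m hm
    obtain ⟨n, hn, rfl⟩ := Finset.mem_image.1 hm
    rw [Finset.mem_filter] at hn
    exact Finset.mem_filter.2 ⟨hIn n hn.1 j hj, hG n hn.1 j hj, hn.2⟩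
  -- the sum over the family
  have hsplit : ∑ n ∈ G, W n ≤ ∑ n ∈ G.filter (fun n => ∀ j < k, P (ord (n + j))), W n +
      ∑ j ∈ Finset.range k, ∑ n ∈ G.filter (fun n => ¬ P (ord (n + j))), W n := by
    rw [← Finset.sum_filter_add_sum_filter_not G (fun n => ∀ j < k, P (ord (n + j)))]
    refine add_le_add le_rfl ?_
    have h1 : ∀ n ∈ G.filter (fun n => ¬ ∀ j < k, P (ord (n + j))),
        W n ≤ ∑ j ∈ Finset.range k, if ¬ P (ord (n + j)) then W n else 0 := by
      intro n hn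
      have h2 := (Finset.mem_filter.1 hn).2
      push Not at h2
      obtain ⟨j, hj, hPj⟩ := h2
      have h3 := Finset.single_le_sum (f := fun j => if ¬ P (ord (n + j)) then W n else 0) (s := Finset.range k)
        (fun i _ => by
          split_ifs
          · exact le_rfl
          · exact hW0 n) (Finset.mem_range.2 hj)
      simp only [hPj, not_false_eq_true, if_true] at h3
      exact h3
    refine (Finset.sum_le_sum h1).trans ?_
    rw [Finset.sum_comm]
    refine Finset.sum_le_sum fun j _ => ?_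
    rw [← Finset.sum_filter, Finset.filter_filter]
    refine Finset.sum_le_sum_of_subset_of_nonneg ?_ fun n _ _ => hW0 n
    intro n hn
    rw [Finset.mem_filter] at hn ⊢
    exact ⟨hn.1, hn.2.2⟩
  have hbadk : ∑ j ∈ Finset.range k, ∑ n ∈ G.filter (fun n => ¬ P (ord (n + j))), W n ≤ k * (c / (2 * (k + 1)) * Lm) + c / 4 * Lm := by
    have h1 : ∀ j ∈ Finset.range k, ∑ n ∈ G.filter (fun n => ¬ P (ord (n + j))), W n ≤
        c / (2 * (k + 1)) * Lm + ∑ n ∈ G, |W (n + j) - W n| := by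
      intro j hj
      have h2 := hbad j (Finset.mem_range.1 hj)
      have h3 : ∑ n ∈ G.filter (fun n => ¬ P (ord (n + j))), W n ≤ ∑ n ∈ G.filter (fun n => ¬ P (ord (n + j))), W (n + j) +
          ∑ n ∈ G.filter (fun n => ¬ P (ord (n + j))), |W (n + j) - W n| := by
        rw [← Finset.sum_add_distrib]
        refine Finset.sum_le_sum fun n _ => ?_
        have := neg_abs_le (W (n + j) - W n)
        linarith
      have h4 : ∑ n ∈ G.filter (fun n => ¬ P (ord (n + j))), |W (n + j) - W n| ≤ ∑ n ∈ G, |W (n + j) - W n| :=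
        Finset.sum_le_sum_of_subset_of_nonneg (Finset.filter_subset _ _) fun n _ _ => abs_nonneg _
      linarith
    refine (Finset.sum_le_sum h1).trans ?_
    rw [Finset.sum_add_distrib, Finset.sum_const, Finset.card_range, nsmul_eq_mul]
    linarith
  have hvv : ∑ n ∈ G.filter (fun n => ∀ j < k, P (ord (n + j))), W n ≤ ∑ n ∈ G.filter (fun n => ∀ j < k, P (ord (n + j))), v n + c / 4 * Lm := by
    have h1 : ∑ n ∈ G.filter (fun n => ∀ j < k, P (ord (n + j))), W n ≤ ∑ n ∈ G.filter (fun n => ∀ j < k, P (ord (n + j))), v n +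
        ∑ n ∈ G.filter (fun n => ∀ j < k, P (ord (n + j))), ∑ j ∈ Finset.range k, |W (n + j) - W n| := by
      rw [← Finset.sum_add_distrib]
      refine Finset.sum_le_sum fun n hn => ?_
      rw [Finset.mem_filter] at hn
      obtain ⟨j, hj, h3⟩ := hv n hn.1 hn.2
      have h4 := Finset.single_le_sum (f := fun j => |W (n + j) - W n|) (s := Finset.range k)
        (fun _ _ => abs_nonneg _) (Finset.mem_range.2 hj)
      have h5 := neg_abs_le (W (n + j) - W n)
      have h6 : W (n + j) ≤ v n := by rw [hW]; exact h3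
      linarith
    have h2 : ∑ n ∈ G.filter (fun n => ∀ j < k, P (ord (n + j))), ∑ j ∈ Finset.range k, |W (n + j) - W n| ≤
        ∑ n ∈ G, ∑ j ∈ Finset.range k, |W (n + j) - W n| :=
      Finset.sum_le_sum_of_subset_of_nonneg (Finset.filter_subset _ _) fun n _ _ => Finset.sum_nonneg fun _ _ => abs_nonneg _
    have h7 : ∑ n ∈ G, ∑ j ∈ Finset.range k, |W (n + j) - W n| = ∑ j ∈ Finset.range k, ∑ n ∈ G, |W (n + j) - W n| := Finset.sum_comm
    linarith
  have hmass' : c * Lm ≤ ∑ n ∈ G, W n := by rw [hW]; exact hmass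
  have e1 : (k : ℝ) * (c / (2 * (k + 1)) * Lm) + c / (2 * (k + 1)) * Lm = c / 2 * Lm := by
    field_simp
  linarith

end

end Pool.Agent.H4.MT
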