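import Pool.Agent.H4.MT.Stm
import Pool.Agent.H4.MZ.Cf

set_option autoImplicit false

/-! The mesoscopic pair is close to a prime sum. -/

namespace Pool.Agent.H4.MT

open Filter Topology MeasureTheory Complex
open scoped ComplexConjugate
open Pool.Agent.Q97.UM
open Pool.Agent.H4.MZ
open Pool.Agent.H4.LG (Yt PF st_eq dp_c N2_nn Yt_meas Yt_bdd)

noncomputable section

/-- **CLS** -/
theorem t_CLS (hR : S_REAL) (hI : S_IMAG) (hV : S_VAR) : S_CLS := by
  obtain ⟨θR, hθR0, hθR1, hR⟩ := hR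
  obtain ⟨θI, hθI0, hθI1, hI⟩ := hI
  refine ⟨min θR θI, by positivity, (min_le_left _ _).trans (by linarith), fun ε hε0 hεε η κ hη hκ => ?_⟩
  have hεR : ε ≤ θR := hεε.trans (min_le_left _ _)
  have hεI : ε ≤ θI := hεε.trans (min_le_right _ _)
  obtain ⟨CR, hCR, hR⟩ := hR ε hε0 hεR
  obtain ⟨CI, hCI, hI⟩ := hI ε hε0 hεI
  obtain ⟨CV, hCV, hV⟩ := hV ε hε0 (hεR.trans (by linarith))
  obtain ⟨K, hK⟩ : ∃ K, K = 1 + (CV + 3) / η + 8 * (CR + CI + 1) / η := ⟨_, rfl⟩
  have hKa : 0 ≤ (CV + 3) / η := by positivity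
  have hKb : 0 ≤ 8 * (CR + CI + 1) / η := by positivity
  have hK1 : 1 ≤ K := by rw [hK]; linarith
  have hK2 : (CV + 3) / η ≤ K := by rw [hK]; linarith
  have hK4 : 8 * (CR + CI + 1) / η ≤ K := by rw [hK]; linarith
  refine ⟨max 4 (Real.exp K), le_max_left _ _, fun al hal => ?_⟩
  have hal4 : 4 ≤ al := (le_max_left _ _).trans hal
  have halK : Real.exp K ≤ al := (le_max_right _ _).trans hal
  have hla : K ≤ Real.log al := by
    rw [← Real.log_exp K]
    exact Real.log_le_log (Real.exp_pos _) halK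
  obtain ⟨la, hlae⟩ : ∃ la, la = Real.log al := ⟨_, rfl⟩
  rw [← hlae] at hla
  have hla1 : 1 ≤ la := hK1.trans hla
  have hla0 : 0 < la := by linarith
  have hπ := Real.pi_pos
  have hπ4 := Real.pi_lt_four
  obtain ⟨lam, hlam⟩ : ∃ lam, lam = al / Real.pi := ⟨_, rfl⟩
  have hlam1 : 1 ≤ lam := by
    rw [hlam, le_div_iff₀ hπ]
    linarith
  have hlam0 : 0 < lam := by linarith
  have h2pl : 2 * Real.pi * lam = 2 * al := by rw [hlam]; field_simp
  have hlogl : |2 * Real.log lam - 2 * la| ≤ 3 := by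
    have h1 : Real.log lam = la - Real.log Real.pi := by
      rw [hlam, Real.log_div (by linarith) hπ.ne', hlae]
    have h2 : 0 ≤ Real.log Real.pi := Real.log_nonneg (by linarith [Real.pi_gt_three])
    have h3 : Real.log Real.pi ≤ 3 / 2 := by
      have h4 : Real.log 4 ≤ 3 / 2 := by
        have h5 : Real.log 4 = 2 * Real.log 2 := by
          rw [show (4 : ℝ) = 2 ^ 2 by norm_num, Real.log_pow]
          push_cast; ring
        have h6 := Real.log_two_lt_d9
        linarith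
      exact (Real.log_le_log hπ hπ4.le).trans h4
    rw [h1, abs_le]
    constructor <;> linarith
  obtain ⟨θ, hθ⟩ : ∃ θ, θ = min (min θR θI / lam) (1 / 160) := ⟨_, rfl⟩
  have hθ0 : 0 < θ := by rw [hθ]; positivity
  have hθ40 : θ ≤ 1 / 160 := by rw [hθ]; exact min_le_right _ _
  have hθR : θ ≤ θR / lam := by
    rw [hθ]
    exact (min_le_left _ _).trans (div_le_div_of_nonneg_right (min_le_left _ _) hlam0.le)
  have hθI : θ ≤ θI / lam := by
    rw [hθ]
    exact (min_le_left _ _).trans (div_le_div_of_nonneg_right (min_le_right _ _) hlam0.le)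
  have hθ1 : θ ≤ 1 / lam := hθR.trans (div_le_div_of_nonneg_right (by linarith) hlam0.le)
  refine ⟨θ, hθ0, hθ40, ?_⟩
  have hlogT : ∀ᶠ T : ℝ in atTop, Real.log T ≤ 1 / 20 * T := by
    have h1 : Tendsto (fun T : ℝ => Real.log T / T ^ (1 : ℝ)) atTop (𝓝 0) :=
      (isLittleO_log_rpow_atTop (by norm_num : (0 : ℝ) < 1)).tendsto_div_nhds_zero
    filter_upwards [h1.eventually_le_const (show (0 : ℝ) < 1 / 20 by norm_num), eventually_gt_atTop (0 : ℝ)] with T h2 hT
    rw [Real.rpow_one, div_le_iff₀ hT] at h2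
    exact h2
  have hedge : ∀ᶠ T : ℝ in atTop, 2 * (6 * Real.log T + 1) * T ^ (1 / 40 : ℝ) ≤ η / 8 * T := by
    have h1 : Tendsto (fun T : ℝ => Real.log T / T ^ (1 / 40 : ℝ)) atTop (𝓝 0) :=
      (isLittleO_log_rpow_atTop (by norm_num : (0 : ℝ) < 1 / 40)).tendsto_div_nhds_zero
    have h2 : ∀ᶠ T : ℝ in atTop, Real.log T / T ^ (1 / 40 : ℝ) ≤ 1 := h1.eventually_le_const (by norm_num)
    have h3 : ∀ᶠ T : ℝ in atTop, 8 * 14 / η ≤ T ^ (38 / 40 : ℝ) := (tendsto_rpow_atTop (by norm_num)).eventually_ge_atTop _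
    filter_upwards [h2, h3, eventually_ge_atTop (1 : ℝ)] with T h2 h3 hT
    have hT0 : 0 < T := by linarith
    have hq0 : 0 < T ^ (1 / 40 : ℝ) := by positivity
    have hq1 : 1 ≤ T ^ (1 / 40 : ℝ) := Real.one_le_rpow hT (by norm_num)
    rw [div_le_one hq0] at h2
    have e1 : T ^ (38 / 40 : ℝ) * (T ^ (1 / 40 : ℝ) * T ^ (1 / 40 : ℝ)) = T := by
      rw [← Real.rpow_add hT0, ← Real.rpow_add hT0]; norm_num
    rw [div_le_iff₀ hη] at h3
    have h4 : 2 * (6 * Real.log T + 1) ≤ 14 * T ^ (1 / 40 : ℝ) := by linarith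
    have h5 : 2 * (6 * Real.log T + 1) * T ^ (1 / 40 : ℝ) ≤ 14 * T ^ (1 / 40 : ℝ) * T ^ (1 / 40 : ℝ) := mul_le_mul_of_nonneg_right h4 hq0.le
    have h6 : 14 * T ^ (1 / 40 : ℝ) * T ^ (1 / 40 : ℝ) ≤ η / 8 * T := by
      have h7 : 14 ≤ η / 8 * T ^ (38 / 40 : ℝ) := by linarith
      have h8 := mul_le_mul_of_nonneg_right h7 (mul_nonneg hq0.le hq0.le)
      have e2 : η / 8 * T ^ (38 / 40 : ℝ) * (T ^ (1 / 40 : ℝ) * T ^ (1 / 40 : ℝ)) = η / 8 * T := by rw [mul_assoc, e1]
      rw [e2] at h8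
      linarith
    linarith
  filter_upwards [hR lam hlam1, hI lam hlam1, hV lam hlam1 κ hκ, hedge, eventually_ge_atTop (1000 : ℝ),
    Real.tendsto_log_atTop.eventually_ge_atTop (2 * al + 1), hlogT] with T hR hI hV hedge hT hLal hLT N hN0 hN
  have hT0 : 0 < T := by linarith
  have hT1 : (1 : ℝ) ≤ T := by linarith
  have hT16 : (16 : ℝ) ≤ T := by linarith
  obtain ⟨L, hLe⟩ : ∃ L, L = Real.log T := ⟨_, rfl⟩
  rw [← hLe] at hLT hLal
  have hL0 : 0 < L := by linarith
  have hNR : (N : ℝ) ≤ T ^ (θR / lam) := hN.trans (Real.rpow_le_rpow_of_exponent_le hT1 hθR)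
  have hNI : (N : ℝ) ≤ T ^ (θI / lam) := hN.trans (Real.rpow_le_rpow_of_exponent_le hT1 hθI)
  have hNV : (N : ℝ) ≤ T ^ (1 / lam) := hN.trans (Real.rpow_le_rpow_of_exponent_le hT1 hθ1)
  have hN40 : (N : ℝ) ≤ T ^ (1 / 40 : ℝ) := hN.trans (Real.rpow_le_rpow_of_exponent_le hT1 (by linarith))
  obtain ⟨a, ha⟩ : ∃ a, a = al / L := ⟨_, rfl⟩
  have ha0 : 0 < a := by rw [ha]; positivity
  have ha1 : a ≤ 1 := by rw [ha, div_le_one hL0]; linarith
  have hsh : sh lam T = 2 * a := by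
    unfold sh
    rw [h2pl, ha, ← hLe]
    ring
  obtain ⟨Y, hY⟩ : ∃ Y, Y = ⌊T ^ ε⌋₊ := ⟨_, rfl⟩
  replace hV := hV N hNV
  rw [← hY, hsh] at hV
  obtain ⟨r, hr⟩ : ∃ r, r = 1 / Real.sqrt la := ⟨_, rfl⟩
  have hsq0 : 0 < Real.sqrt la := Real.sqrt_pos.2 hla0
  have hr0 : 0 < r := by rw [hr]; positivity
  have hr2 : r ^ 2 = 1 / la := by rw [hr, div_pow, one_pow, Real.sq_sqrt hla0.le]
  obtain ⟨α, hα⟩ : ∃ α, α = asc r (2 * a) a N Y := ⟨_, rfl⟩
  have hαdp : ∀ t, dp Y α t = ((r : ℝ) : ℂ) * dp Y (ah (2 * a) N Y) (t - a) := fun t => by rw [hα]; exact asc_dp _ _ _ _ _ _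
  -- variance
  have hVd : |N2 Y α - 2| ≤ (CV + 3) / la := by
    rw [hα, asc_N2, hr2]
    have h1 : 1 / la * N2 Y (ah (2 * a) N Y) - 2 = (N2 Y (ah (2 * a) N Y) - 2 * la) / la := by field_simp
    rw [h1, abs_div, abs_of_pos hla0]
    refine div_le_div_of_nonneg_right ?_ hla0.le
    have h2 : N2 Y (ah (2 * a) N Y) - 2 * la = (N2 Y (ah (2 * a) N Y) - 2 * Real.log lam) + (2 * Real.log lam - 2 * la) := by ring
    rw [h2]
    exact (abs_add_le _ _).trans (add_le_add hV.1 hlogl)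
  have hVd1 : (CV + 3) / la ≤ η := by
    have h1 := hK2.trans hla
    rw [div_le_iff₀ hη] at h1
    rw [div_le_iff₀ hla0]
    linarith
  have hQ : Q4 Y α ≤ κ := by
    rw [hα, asc_Q4]
    have h1 : r ^ 4 ≤ 1 := by
      have h2 : r ^ 4 = (1 / la) ^ 2 := by rw [← hr2]; ring
      rw [h2]
      refine pow_le_one₀ (by positivity) ?_
      rw [div_le_one hla0]; exact hla1
    have h3 := Q4_nn Y (ah (2 * a) N Y)
    calc r ^ 4 * Q4 Y (ah (2 * a) N Y) ≤ 1 * Q4 Y (ah (2 * a) N Y) := mul_le_mul_of_nonneg_right h1 h3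
      _ = Q4 Y (ah (2 * a) N Y) := one_mul _
      _ ≤ κ := hV.2
  have hPS : PS N Y α := by rw [hα]; exact asc_PS _ _ _ _ _
  refine ⟨α, by rw [← hY]; exact hPS, by rw [← hY]; exact hVd.trans hVd1, by rw [← hY]; exact hQ, fun b => ?_⟩
  rw [← hY]
  have hTN : 0 ≤ T * N2 N b := mul_nonneg hT0.le (N2_nn N b)
  obtain ⟨b', hb'⟩ : ∃ b' : ℕ → ℂ, b' = fun n => b n * (n : ℂ) ^ ((-a : ℝ) * I) := ⟨_, rfl⟩
  have hbt : ∀ t, dp N b t = dp N b' (t - a) := fun t => by rw [hb']; exact dp_tr N b a t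
  have hbN : N2 N b' = N2 N b := by rw [hb']; exact N2_tr N b a
  replace hR := hR N hN0 hNR b'
  replace hI := hI N hN0 hNI b'
  rw [← hY, hsh] at hR hI
  rw [hbN] at hR hI
  rw [h2pl] at hI
  -- closeness
  obtain ⟨W, hW⟩ : ∃ W : ℝ → ℝ, W = fun t => ‖dp N b t‖ ^ 2 := ⟨_, rfl⟩
  have hWc : Continuous W := by rw [hW]; exact (dp_c N b).norm.pow 2
  have hW0 : ∀ t, 0 ≤ W t := fun t => by rw [hW]; exact sq_nonneg _
  have hWb : ∀ t, W t ≤ N * N2 N b := fun t => by rw [hW]; exact (Pool.Agent.Q84.UM.t_DPM.2.2 N b t).1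
  obtain ⟨c, hc⟩ : ∃ c, c = T + 3 * L + 1 := ⟨_, rfl⟩
  obtain ⟨d, hd⟩ : ∃ d, d = 2 * T - 3 * L := ⟨_, rfl⟩
  have hAc : T ≤ c := by linarith
  have hcd : c ≤ d := by linarith
  have hdB : d ≤ 2 * T := by linarith
  have hiW : ∀ x y, IntervalIntegrable W volume x y := fun x y => hWc.intervalIntegrable x y
  -- the functions before translation
  obtain ⟨FR, hFR⟩ : ∃ FR : ℝ → ℝ, FR = fun t => |Real.log ‖zt (t + 2 * a)‖ - Real.log ‖zt t‖ - (dp Y (ah (2 * a) N Y) t).re| ^ 2 * ‖dp N b' t‖ ^ 2 := ⟨_, rfl⟩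
  obtain ⟨FI, hFI⟩ : ∃ FI : ℝ → ℝ, FI = fun t => (Real.pi * (Yt (wd (2 * al)) T t - lam) - (dp Y (ah (2 * a) N Y) t).im) ^ 2 * ‖dp N b' t‖ ^ 2 := ⟨_, rfl⟩
  rw [← hFR] at hR
  rw [← hFI, ← hLe] at hI
  have hFR0 : ∀ t, 0 ≤ FR t := fun t => by rw [hFR]; positivity
  have hFI0 : ∀ t, 0 ≤ FI t := fun t => by rw [hFI]; positivity
  have hiFI : ∀ x y, IntervalIntegrable FI volume x y := fun x y => by rw [hFI]; exact fi_ii lam x y
  have eu : ∀ t, (Rr al T t - (dp Y α t).re) ^ 2 * W t = r ^ 2 * FR (t - a) := by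
    intro t
    rw [hαdp t, hW, hFR]
    simp only
    rw [hbt t, Complex.re_ofReal_mul, sq_abs]
    unfold Rr
    rw [← hLe, ← hlae, ← ha]
    have e1 : t - a + 2 * a = t + a := by ring
    rw [e1, div_eq_mul_inv]
    have e2 : (Real.sqrt la)⁻¹ = r := by rw [hr, one_div]
    rw [e2]
    ring
  have ev : ∀ t, c ≤ t → t ≤ d → (Ri al T t - (dp Y α t).im) ^ 2 * W t = r ^ 2 * FI (t - a) := by
    intro t ht1 ht2
    rw [hαdp t, hW, hFI]
    simp only
    rw [hbt t, Complex.im_ofReal_mul]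
    unfold Ri
    have e0 : Cn al T t = Yt (wd (2 * al)) T (t - a) := by
      have h1 := Cn_Yt (al := al) (T := T) (t := t) hT16 (by rw [← hLe]; exact hLal) (by rw [← hLe, ← ha]; linarith) (by rw [← hLe, ← ha]; linarith)
      rw [← hLe, ← ha] at h1
      exact h1
    rw [e0, ← hlae, div_eq_mul_inv]
    have e2 : (Real.sqrt la)⁻¹ = r := by rw [hr, one_div]
    have e3 : Real.pi * (Yt (wd (2 * al)) T (t - a) - lam) = Real.pi * Yt (wd (2 * al)) T (t - a) - al := by
      rw [hlam]; field_simp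
    rw [e2, e3]
    ring
  have hiFRa : IntervalIntegrable (fun t => FR (t - a)) volume (T + a) (2 * T + a) := hR.1.comp_sub_right a
  have hiu : IntervalIntegrable (fun t => (Rr al T t - (dp Y α t).re) ^ 2 * W t) volume c d := by
    simp only [eu]
    refine (hiFRa.const_mul (r ^ 2)).mono_set ?_
    rw [Set.uIcc_of_le hcd, Set.uIcc_of_le (by linarith)]
    exact Set.Icc_subset_Icc (by linarith) (by linarith)
  have hiv : IntervalIntegrable (fun t => (Ri al T t - (dp Y α t).im) ^ 2 * W t) volume c d := by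
    have h1 : IntervalIntegrable (fun t => r ^ 2 * FI (t - a)) volume c d := by
      have := (hiFI (c - a) (d - a)).comp_sub_right a
      simp only [sub_add_cancel] at this
      exact this.const_mul _
    refine (intervalIntegrable_congr (fun t ht => ?_)).1 h1
    rw [Set.uIoc_of_le hcd] at ht
    exact (ev t ht.1.le ht.2).symm
  have hUI : ∫ t in c..d, (Rr al T t - (dp Y α t).re) ^ 2 * W t ≤ CR / la * (T * N2 N b) := by
    simp only [eu]
    rw [intervalIntegral.integral_const_mul, intervalIntegral.integral_comp_sub_right FR a, hr2]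
    have h1 := shrink hFR0 (by linarith : T ≤ c - a) (by linarith : c - a ≤ d - a) (by linarith : d - a ≤ 2 * T) hR.1
    have h2 := h1.trans hR.2
    have h3 := mul_le_mul_of_nonneg_left h2 (show 0 ≤ 1 / la by positivity)
    refine h3.trans (le_of_eq ?_)
    ring
  have hVI : ∫ t in c..d, (Ri al T t - (dp Y α t).im) ^ 2 * W t ≤ CI / la * (T * N2 N b) := by
    have e1 : ∫ t in c..d, (Ri al T t - (dp Y α t).im) ^ 2 * W t = ∫ t in c..d, r ^ 2 * FI (t - a) := by
      refine intervalIntegral.integral_congr fun t ht => ?_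
      rw [Set.uIcc_of_le hcd] at ht
      exact ev t ht.1 ht.2
    rw [e1, intervalIntegral.integral_const_mul, intervalIntegral.integral_comp_sub_right FI a, hr2]
    have h1 := shrink hFI0 (by linarith : T + 3 * L ≤ c - a) (by linarith : c - a ≤ d - a) (by linarith : d - a ≤ 2 * T - 3 * L) (hiFI _ _)
    have h2 := h1.trans hI
    have h3 := mul_le_mul_of_nonneg_left h2 (show 0 ≤ 1 / la by positivity)
    refine h3.trans (le_of_eq ?_)
    ring
  -- the bad set
  obtain ⟨B, hB⟩ : ∃ B : Set ℝ, B = {t | 1 < |Rr al T t - (dp Y α t).re| ∨ 1 < |Ri al T t - (dp Y α t).im|} := ⟨_, rfl⟩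
  rw [← hB]
  have hmu : Measurable fun t => Rr al T t - (dp Y α t).re :=
    (Rr_meas al T).sub (Complex.continuous_re.comp (dp_c Y α)).measurable
  have hmv : Measurable fun t => Ri al T t - (dp Y α t).im :=
    (Ri_meas al T).sub (Complex.continuous_im.comp (dp_c Y α)).measurable
  have hBm : MeasurableSet B := by
    rw [hB]
    have h1 : MeasurableSet {t | 1 < |Rr al T t - (dp Y α t).re|} := measurableSet_lt measurable_const hmu.abs
    have h2 : MeasurableSet {t | 1 < |Ri al T t - (dp Y α t).im|} := measurableSet_lt measurable_const hmv.abs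
    exact h1.union h2
  have hBW0 : ∀ t, 0 ≤ B.indicator W t := fun t => Set.indicator_nonneg (fun s _ => hW0 s) t
  have hBW1 : ∀ t, B.indicator W t ≤ W t := fun t => Set.indicator_le_self' (fun s _ => hW0 s) t
  have hBi : ∀ x y, IntervalIntegrable (B.indicator W) volume x y := by
    intro x y
    refine (hiW x y).mono_fun' ((hWc.measurable.indicator hBm).aestronglyMeasurable) (Filter.Eventually.of_forall fun t => ?_)
    beta_reduce
    rw [Real.norm_eq_abs, abs_of_nonneg (hBW0 t)]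
    exact hBW1 t
  have e0 : ∫ t in Set.Icc T (2 * T) ∩ B, ‖dp N b t‖ ^ 2 = ∫ t in T..(2 * T), B.indicator W t := by
    rw [← setIntegral_indicator hBm, integral_Icc_eq_integral_Ioc, intervalIntegral.integral_of_le (by linarith), hW]
  rw [e0, ← intervalIntegral.integral_add_adjacent_intervals (hBi T c) (hBi c (2 * T)),
    ← intervalIntegral.integral_add_adjacent_intervals (hBi c d) (hBi d (2 * T))]
  have hed : (∫ t in T..c, B.indicator W t) + (∫ t in d..(2 * T), B.indicator W t) ≤ η / 8 * (T * N2 N b) := by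
    have h1 : ∫ t in T..c, B.indicator W t ≤ ∫ t in T..c, (N * N2 N b : ℝ) :=
      intervalIntegral.integral_mono_on hAc (hBi _ _) intervalIntegrable_const fun t _ => (hBW1 t).trans (hWb t)
    have h2 : ∫ t in d..(2 * T), B.indicator W t ≤ ∫ t in d..(2 * T), (N * N2 N b : ℝ) :=
      intervalIntegral.integral_mono_on hdB (hBi _ _) intervalIntegrable_const fun t _ => (hBW1 t).trans (hWb t)
    rw [intervalIntegral.integral_const, smul_eq_mul] at h1 h2
    have h3 : (2 * (6 * L + 1) * T ^ (1 / 40 : ℝ)) * N2 N b ≤ (η / 8 * T) * N2 N b := by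
      rw [hLe]
      exact mul_le_mul_of_nonneg_right hedge (N2_nn N b)
    have h4 : 2 * (6 * L + 1) * ((N : ℝ) * N2 N b) ≤ (2 * (6 * L + 1) * T ^ (1 / 40 : ℝ)) * N2 N b := by
      have h5 : (N : ℝ) * N2 N b ≤ T ^ (1 / 40 : ℝ) * N2 N b := mul_le_mul_of_nonneg_right hN40 (N2_nn N b)
      have h6 := mul_le_mul_of_nonneg_left h5 (show 0 ≤ 2 * (6 * L + 1) by positivity)
      linarith
    have e1 : (c - T) * ((N : ℝ) * N2 N b) * 2 + (2 * T - d) * ((N : ℝ) * N2 N b) * 2 = 2 * (6 * L + 1) * ((N : ℝ) * N2 N b) := by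
      rw [hc, hd]; ring
    have e2 : 0 ≤ (6 * L + 1) * ((N : ℝ) * N2 N b) := mul_nonneg (by positivity) (mul_nonneg (Nat.cast_nonneg _) (N2_nn N b))
    linarith
  have hmid : ∫ t in c..d, B.indicator W t ≤ η / 8 * (T * N2 N b) := by
    have h1 : ∫ t in c..d, B.indicator W t ≤ ∫ t in c..d, ((Rr al T t - (dp Y α t).re) ^ 2 * W t + (Ri al T t - (dp Y α t).im) ^ 2 * W t) := by
      refine intervalIntegral.integral_mono_on hcd (hBi c d) (hiu.add hiv) fun t _ => ?_
      by_cases ht : t ∈ B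
      · rw [Set.indicator_of_mem ht]
        have h2 : 1 ≤ (Rr al T t - (dp Y α t).re) ^ 2 + (Ri al T t - (dp Y α t).im) ^ 2 := by
          rw [hB] at ht
          rcases ht with h | h
          · have h3 : 1 < |Rr al T t - (dp Y α t).re| := h
            have h4 : 1 ≤ |Rr al T t - (dp Y α t).re| ^ 2 := one_le_pow₀ h3.le
            rw [sq_abs] at h4
            have := sq_nonneg (Ri al T t - (dp Y α t).im)
            linarith
          · have h3 : 1 < |Ri al T t - (dp Y α t).im| := h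
            have h4 : 1 ≤ |Ri al T t - (dp Y α t).im| ^ 2 := one_le_pow₀ h3.le
            rw [sq_abs] at h4
            have := sq_nonneg (Rr al T t - (dp Y α t).re)
            linarith
        have h5 := mul_le_mul_of_nonneg_right h2 (hW0 t)
        linarith
      · rw [Set.indicator_of_notMem ht]
        have := hW0 t
        positivity
    rw [intervalIntegral.integral_add hiu hiv] at h1
    have h2 : CR / la + CI / la ≤ η / 8 := by
      have h3 := hK4.trans hla
      rw [div_le_iff₀ hη] at h3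
      rw [← add_div, div_le_iff₀ hla0]
      linarith
    have h3 := mul_le_mul_of_nonneg_right h2 hTN
    linarith
  have h4 : 0 ≤ η * (T * N2 N b) := mul_nonneg hη.le hTN
  linarith

end

end Pool.Agent.H4.MT
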