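import Pool.Agent.H4.MZ.Cf2
import Pool.Agent.H4.MZ.Arg

set_option autoImplicit false

/-! The count in the imaginary coordinate is the number of zeros. -/

namespace Pool.Agent.H4.MT

open Filter Topology MeasureTheory Complex
open Pool.Agent.H4.MZ (wd wd_pf Cn Rr Ri)
open Pool.Agent.H4.LG (st st_eq)
open Pool.Agent.Q97.UM (dp N2 mz zt)
open Pool.Agent.Q32.Idx (N N_split)

noncomputable section

/-- the count is a statistic -/
lemma N_st {s L a : ℝ} (hs : 1 ≤ s) (hL : 0 < L) : (N s (s + a / L) : ℝ) = st (wd a) L s := by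
  have hmem : ∀ w : ℂ, w ∈ H370.Zf riemannZeta s (s + a / L) ↔
      w ∈ {w : ℂ | (riemannZeta w = 0 ∧ 0 < w.re ∧ w.re < 1) ∧ s < w.im ∧ w.im ≤ s + a / L} := by
    intro w
    rw [H370.mem_Zf H370.good_zeta hs]
    exact ⟨fun h => ⟨⟨h.2.2.2.2, h.1, h.2.1⟩, h.2.2.1, h.2.2.2.1⟩, fun h => ⟨h.1.2.1, h.1.2.2, h.2.1, h.2.2, h.1.1⟩⟩
  have hwin : ∀ w : ℂ, L * (w.im - s) ∈ Set.Ioc 0 a ↔ (s < w.im ∧ w.im ≤ s + a / L) := by
    intro w
    have e : L * (s + a / L - s) = a := by field_simp; ring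
    constructor
    · rintro ⟨h1, h2⟩
      have h3 : 0 < w.im - s := (mul_pos_iff_of_pos_left hL).1 h1
      have h2' : L * (w.im - s) ≤ L * (s + a / L - s) := by rw [e]; exact h2
      have h4 := le_of_mul_le_mul_left h2' hL
      exact ⟨by linarith, by linarith⟩
    · rintro ⟨h1, h2⟩
      refine ⟨mul_pos hL (by linarith), ?_⟩
      have h3 : L * (w.im - s) ≤ L * (s + a / L - s) := mul_le_mul_of_nonneg_left (by linarith) hL.le
      rwa [e] at h3
  have h1 : N s (s + a / L) = ∑ w ∈ H370.Zf riemannZeta s (s + a / L), analyticOrderNatAt riemannZeta w := by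
    unfold N
    refine finsum_mem_eq_sum_of_inter_support_eq _ ?_
    congr 1
    ext w
    rw [Finset.mem_coe, hmem]
    exact ⟨fun h => ⟨⟨h.1, h.2.1, h.2.2.1⟩, h.2.2.2.1, h.2.2.2.2⟩, fun h => ⟨h.1.1, h.1.2.1, h.1.2.2, h.2.1, h.2.2⟩⟩
  have h2 : st (wd a) L s =
      ∑ w ∈ H370.Zf riemannZeta s (s + a / L), (analyticOrderNatAt riemannZeta w : ℝ) * wd a (L * (w.im - s)) := by
    unfold st
    refine finsum_mem_eq_sum_of_inter_support_eq _ ?_
    ext w
    simp only [Set.mem_inter_iff, Function.mem_support, Finset.mem_coe, hmem]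
    constructor
    · rintro ⟨h1, h2⟩
      refine ⟨⟨h1, (hwin w).1 ?_⟩, h2⟩
      by_contra hcon
      refine h2 ?_
      unfold wd
      rw [Set.indicator_of_notMem hcon, mul_zero]
    · rintro ⟨h1, h2⟩
      exact ⟨h1.1, h2⟩
  rw [h1, h2, Nat.cast_sum]
  refine Finset.sum_congr rfl fun w hw => ?_
  unfold wd
  rw [Set.indicator_of_mem ((hwin w).2 ((hmem w).1 hw).2), mul_one]

/-- the count -/
theorem N_Cn {α T t : ℝ} (hT : 16 ≤ T) (hα : 0 ≤ α) (hL : 2 * α + 1 ≤ Real.log T) (h1 : T ≤ t) (h2 : t ≤ 2 * T) :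
    (N 0 (t + α / Real.log T) : ℝ) - N 0 (t - α / Real.log T) = Cn α T t := by
  have hL0 : 0 < Real.log T := Real.log_pos (by linarith)
  have ha : α / Real.log T ≤ 1 := by rw [div_le_one hL0]; linarith
  have ha0 : 0 ≤ α / Real.log T := by positivity
  have e0 := N_split (a := 0) (b := t - α / Real.log T) (c := t + α / Real.log T) (by linarith) (by linarith)
  have e1 : (N 0 (t + α / Real.log T) : ℝ) - N 0 (t - α / Real.log T) = N (t - α / Real.log T) (t + α / Real.log T) := by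
    rw [e0]
    push_cast
    ring
  have e : t + α / Real.log T = (t - α / Real.log T) + 2 * α / Real.log T := by ring
  rw [e1, e, N_st (by linarith) hL0]
  exact st_eq (V := 2 * α + 1) (Q := 1) wd_pf (by linarith : (1 : ℝ) ≤ T / 2) hL0 hL (by linarith) (by linarith)

end

end Pool.Agent.H4.MT
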