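import Pool.Agent.H4.MT.Avg
import Pool.Agent.H4.PX.Lbd

set_option autoImplicit false

/-! Moments over a general family of runs of isolated simple zeros (adaptation of PX/Lbd.lean). -/

open Filter Topology MeasureTheory Complex

namespace Pool.Agent.H4.MT

open Pool.Agent.Q97.UM Pool.Agent.H4.IX Pool.Agent.H4.PX
open Pool.Agent.Q98.UM (S3 S3_nonneg supp_zero samp_upper norm_ap_one norm_ap_le prime_lower dp_cube deriv_ne EP_PA mem_ZI)
open Pool.Agent.Q32.Idx (NoCons N N_split mem_Zf)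

noncomputable section

open Classical in
/-- **moments** -/
theorem lbr (k : ℕ) {c d θ₀ : ℝ} (hc : 0 < c) (hd0 : 0 < d) (hθ₀ : 0 < θ₀) (A : ℝ) (hA : 1 ≤ A) :
    ∃ c₂ : ℝ, 0 < c₂ ∧ ∀ᶠ T : ℝ in atTop, ∀ G : Finset ℕ, (∀ n ∈ G, ∀ j < k, n + j ∈ gdi d T) → (∀ n ∈ G, n ∈ In T) →
      (∀ M : ℕ, (M : ℝ) ≤ T ^ θ₀ → ∀ b : ℕ → ℂ, c * Lam T M b ≤ ∑ n ∈ G, w M b (ord n)) → ∀ lam : ℝ, |lam| ≤ A →
      ∀ v : ℕ → ℝ, (∀ n, 0 ≤ v n) → (∀ n ∈ G, ∃ j < k, dz (ord (n + j)) ^ (2 * lam) ≤ v n) →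
      c₂ * T * Real.log T ^ ((lam + 1) ^ 2) ≤ ∑ n ∈ G, v n := by
  obtain ⟨θ₁', c₁, hθ₁', -, hc₁, hav⟩ := avg k (c := c) (d := d) hc
  obtain ⟨θ₁, hθ₁e⟩ : ∃ θ₁, θ₁ = min θ₁' θ₀ := ⟨_, rfl⟩
  have hθ₁ : 0 < θ₁ := by rw [hθ₁e]; positivity
  have hθ₁a : θ₁ ≤ θ₁' := by rw [hθ₁e]; exact min_le_left _ _
  have hθ₁b : θ₁ ≤ θ₀ := by rw [hθ₁e]; exact min_le_right _ _
  obtain ⟨θ₂, hθ₂, -, hS⟩ := b_SAMP 1 one_pos
  obtain ⟨θ₃, δ₀, hθ₃, hδ₀, hTD⟩ := b_THD 1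
  obtain ⟨κ, hκ, hE⟩ := b_EK A hA
  have hκ1 : 0 < 7 + 20 * κ := by linarith
  have hD := Pool.Agent.Q84.UM.t_DPM
  obtain ⟨δ, hδ, hδ1, hδ2, hδ3, hδ4, hδ5⟩ : ∃ δ : ℝ, 0 < δ ∧ (7 + 20 * κ) * δ ≤ 1 / 40 ∧ δ ≤ δ₀ ∧
      (7 + 20 * κ) * δ ≤ θ₁ ∧ (7 + 20 * κ) * δ ≤ θ₂ ∧ (7 + 20 * κ) * δ ≤ θ₃ := by
    set m := min (1 / 40) (min θ₁ (min θ₂ θ₃)) with hm
    have hm0 : 0 < m := by positivity
    have h1 : m ≤ 1 / 40 := min_le_left _ _
    have h2 : m ≤ θ₁ := (min_le_right _ _).trans (min_le_left _ _)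
    have h3 : m ≤ θ₂ := (min_le_right _ _).trans ((min_le_right _ _).trans (min_le_left _ _))
    have h4 : m ≤ θ₃ := (min_le_right _ _).trans ((min_le_right _ _).trans (min_le_right _ _))
    have h5 : (7 + 20 * κ) * min (m / (7 + 20 * κ)) δ₀ ≤ m := by
      calc (7 + 20 * κ) * min (m / (7 + 20 * κ)) δ₀ ≤ (7 + 20 * κ) * (m / (7 + 20 * κ)) :=
            mul_le_mul_of_nonneg_left (min_le_left _ _) hκ1.le
        _ = m := by field_simp
    exact ⟨min (m / (7 + 20 * κ)) δ₀, by positivity, h5.trans h1, min_le_right _ _, h5.trans h2,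
      h5.trans h3, h5.trans h4⟩
  have hδ40 : δ ≤ 1 / 40 := by nlinarith
  obtain ⟨C₁, hC₁, hTD⟩ := hTD δ d hδ hδ2 hd0
  obtain ⟨C₂, c₂, hC₂, hc₂, hE⟩ := hE δ hδ
  obtain ⟨C₄, hC₄, hPL⟩ := prime_lower Pool.Agent.Q149.UM.t_MZ hδ (by linarith)
  have hS3 := S3_nonneg
  set K₁ : ℝ := 2 * A * C₁ + 8 * A * S3 + 8 * C₂ with hK₁
  have hK₁0 : 0 ≤ K₁ := by positivity
  set K : ℝ := K₁ / c₁ + 1 with hK
  have hK0 : 0 < K := by positivity
  refine ⟨Real.exp (-K) * c₁ * (c₂ * Real.exp (-(A ^ 2 * C₄))), by positivity, ?_⟩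
  filter_upwards [hav, hS, hTD, hE, hPL, eventually_ge_atTop (Real.exp 1), eventually_ge_atTop 1]
    with T hav hS hTD hE hPL hTe hT1 G hG hGI hmass lam hlam v hv0 hv
  have hT0 : 0 < T := by linarith
  have hL1 : 1 ≤ Real.log T := (Real.le_log_iff_exp_le hT0).mpr hTe
  have hL0 : 0 < Real.log T := by linarith
  set kk : Fin 1 → ℝ := fun _ => lam with hk'
  set αα : Fin 1 → ℝ := fun _ => 0 with hα'
  have hk : ∑ j, |kk j| ≤ A := by simpa [hk'] using hlam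
  obtain ⟨M, e, J, M₀, q, wt, hd'⟩ := hE (ap kk αα) (ap kk fun j => 2 * αα j) (norm_ap_le kk αα hk)
    (norm_ap_le kk _ hk)
  have hML : (M : ℝ) ≤ T ^ (20 * κ * δ) := hd'.len
  set F : ℝ → ℂ := dp M e with hF
  set n2 := N2 M e with hn2
  have hn20 : 0 ≤ n2 := Pool.Agent.H4.PX.N2_nonneg _ _
  -- the size of the mean square
  have hlow2 : c₂ * Real.exp (-(A ^ 2 * C₄)) * Real.log T ^ (lam ^ 2) ≤ n2 := by
    refine le_trans ?_ hd'.low
    have e1 : ∑ p ∈ (Finset.Icc 1 ⌊T ^ δ⌋₊).filter Nat.Prime, ‖ap kk αα p‖ ^ 2 / (p : ℝ) =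
        lam ^ 2 * ∑ p ∈ (Finset.Icc 1 ⌊T ^ δ⌋₊).filter Nat.Prime, (1 : ℝ) / p := by
      rw [Finset.mul_sum]
      refine Finset.sum_congr rfl fun p _ => ?_
      rw [hk', hα', norm_ap_one, sq_abs]
      ring
    rw [e1]
    have e2 : Real.log T ^ (lam ^ 2) = Real.exp (lam ^ 2 * Real.log (Real.log T)) := by
      rw [Real.rpow_def_of_pos hL0, mul_comm]
    have hlam2 : lam ^ 2 ≤ A ^ 2 := by
      rw [← sq_abs lam]
      exact pow_le_pow_left₀ (abs_nonneg _) hlam 2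
    have e3 : lam ^ 2 * Real.log (Real.log T) - A ^ 2 * C₄ ≤
        lam ^ 2 * ∑ p ∈ (Finset.Icc 1 ⌊T ^ δ⌋₊).filter Nat.Prime, (1 : ℝ) / p := by
      have u1 := mul_le_mul_of_nonneg_left hPL (sq_nonneg lam)
      have u2 := mul_le_mul_of_nonneg_right hlam2 hC₄
      linarith
    calc c₂ * Real.exp (-(A ^ 2 * C₄)) * Real.log T ^ (lam ^ 2)
        = c₂ * Real.exp (lam ^ 2 * Real.log (Real.log T) - A ^ 2 * C₄) := by
          rw [e2, Real.exp_sub, Real.exp_neg]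
          ring
      _ ≤ _ := mul_le_mul_of_nonneg_left (Real.exp_le_exp.mpr e3) hc₂.le
  have hn2p : 0 < n2 := lt_of_lt_of_le (by positivity) hlow2
  have hM1 : 1 ≤ M := by
    rcases Nat.eq_zero_or_pos M with h | h
    · exfalso
      have : N2 M e = 0 := by
        rw [h]
        unfold N2
        simp
      linarith
    · exact h
  have hM' : (M : ℝ) ≤ T ^ ((1 + 20 * κ) * δ) :=
    hML.trans (Real.rpow_le_rpow_of_exponent_le hT1 (by nlinarith))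
  have hM7 : (M : ℝ) ≤ T ^ ((7 + 20 * κ) * δ) :=
    hM'.trans (Real.rpow_le_rpow_of_exponent_le hT1 (by nlinarith))
  set X := ⌊T ^ δ⌋₊ with hX
  set Λ : ℝ := Real.log T * (T * n2) with hΛ
  have hΛ0 : 0 ≤ Λ := by positivity
  have hup : ∑ s ∈ ZI d T, ‖F s.im‖ ^ 2 ≤ 2 * Λ :=
    samp_upper hT0.le hL0.le
      ((hS M (hM7.trans (Real.rpow_le_rpow_of_exponent_le hT1 hδ4)) e).2.2) d
  have hDs := (hTD M (hM7.trans (Real.rpow_le_rpow_of_exponent_le hT1 hδ5)) e).1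
  simp only [pow_one] at hDs
  rw [mul_assoc C₁] at hDs
  -- the block errors
  have hq6 : ∀ j t, ‖dp M₀ (q j) t‖ ^ 6 * ‖F t‖ ^ 2 =
      ‖dp (M₀ ^ 3 * M) (cv (q j) (cv (q j) (cv (q j) e))) t‖ ^ 2 := fun j t =>
    dp_cube hD (hd'.qs j) hd'.supp t
  have hlen3 : ((M₀ ^ 3 * M : ℕ) : ℝ) ≤ T ^ θ₂ := by
    have e1 : ((M₀ ^ 3 * M : ℕ) : ℝ) ≤ (T ^ (2 * δ)) ^ 3 * T ^ ((1 + 20 * κ) * δ) := by
      push_cast
      exact mul_le_mul (pow_le_pow_left₀ (Nat.cast_nonneg _) hd'.M0 3) hM' (by positivity) (by positivity)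
    refine e1.trans ?_
    rw [← Real.rpow_natCast, ← Real.rpow_mul hT0.le, ← Real.rpow_add hT0]
    refine Real.rpow_le_rpow_of_exponent_le hT1 ?_
    push_cast
    nlinarith
  have hblk : ∀ j, ∑ s ∈ ZI d T, ‖dp M₀ (q j) s.im‖ ^ 6 * ‖F s.im‖ ^ 2 ≤
        2 * (Real.log T * (T * N2 (M₀ ^ 3 * M) (cv (q j) (cv (q j) (cv (q j) e))))) := by
    intro j
    rw [Finset.sum_congr rfl fun s _ => hq6 j s.im]
    exact samp_upper hT0.le hL0.le ((hS _ hlen3 _).2.2) d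
  have hmean := hd'.mean M e hM1 hM' (supp_zero hd'.supp)
  -- the error function
  obtain ⟨Ds, hDsd⟩ : ∃ Ds : ℝ → ℝ, Ds = fun t => |Real.log (dz t) - Real.log (Real.log T) - EP X t| := ⟨_, rfl⟩
  have hDs' : ∑ s ∈ ZI d T, Ds s.im * ‖F s.im‖ ^ 2 ≤ C₁ * Λ := by
    refine le_trans (le_of_eq ?_) hDs
    refine Finset.sum_congr rfl fun s hs => ?_
    rw [hDsd, dz_im hT1 hs]
  obtain ⟨g, hg⟩ : ∃ g : ℝ → ℝ, g = fun t => 2 * A * Ds t + (4 * A * S3 + 2 * C₂) +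
    ∑ j ∈ Finset.range J, 2 * wt j * ‖dp M₀ (q j) t‖ ^ 6 := ⟨_, rfl⟩
  have hg0 : ∀ t, 0 ≤ g t := by
    intro t
    rw [hg, hDsd]
    have h1 : 0 ≤ ∑ j ∈ Finset.range J, 2 * wt j * ‖dp M₀ (q j) t‖ ^ 6 :=
      Finset.sum_nonneg fun j _ => by have := hd'.wn j; positivity
    have h2 : 0 ≤ 2 * A * |Real.log (dz t) - Real.log (Real.log T) - EP X t| := by positivity
    have h3 : 0 ≤ 4 * A * S3 + 2 * C₂ := by positivity
    simp only
    linarith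
  have hgF : ∀ t, g t * ‖F t‖ ^ 2 = 2 * A * (Ds t * ‖F t‖ ^ 2) +
      (4 * A * S3 + 2 * C₂) * ‖F t‖ ^ 2 +
      ∑ j ∈ Finset.range J, 2 * wt j * (‖dp M₀ (q j) t‖ ^ 6 * ‖F t‖ ^ 2) := by
    intro t
    simp only [hg]
    rw [add_mul, add_mul, Finset.sum_mul]
    congr 1
    · ring
    · exact Finset.sum_congr rfl fun j _ => by ring
  have hint : ∑ s ∈ ZI d T, g s.im * ‖F s.im‖ ^ 2 ≤ K₁ * Λ := by
    rw [Finset.sum_congr rfl fun s _ => hgF s.im, Finset.sum_add_distrib, Finset.sum_add_distrib,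
      ← Finset.mul_sum, ← Finset.mul_sum, Finset.sum_comm]
    have b1 : 2 * A * ∑ s ∈ ZI d T, Ds s.im * ‖F s.im‖ ^ 2 ≤ 2 * A * (C₁ * Λ) :=
      mul_le_mul_of_nonneg_left hDs' (by positivity)
    have b2 : (4 * A * S3 + 2 * C₂) * ∑ s ∈ ZI d T, ‖F s.im‖ ^ 2 ≤ (4 * A * S3 + 2 * C₂) * (2 * Λ) :=
      mul_le_mul_of_nonneg_left hup (by positivity)
    have b3 : ∑ j ∈ Finset.range J, ∑ s ∈ ZI d T, 2 * wt j *
        (‖dp M₀ (q j) s.im‖ ^ 6 * ‖F s.im‖ ^ 2) ≤ 4 * (Real.log T * T) * (C₂ * n2) := by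
      calc ∑ j ∈ Finset.range J, ∑ s ∈ ZI d T, 2 * wt j * (‖dp M₀ (q j) s.im‖ ^ 6 * ‖F s.im‖ ^ 2)
          ≤ ∑ j ∈ Finset.range J, 4 * (Real.log T * T) * (wt j *
              N2 (M₀ ^ 3 * M) (cv (q j) (cv (q j) (cv (q j) e)))) := by
            refine Finset.sum_le_sum fun j _ => ?_
            rw [← Finset.mul_sum]
            have := mul_le_mul_of_nonneg_left (hblk j) (by have := hd'.wn j; linarith : 0 ≤ 2 * wt j)
            refine this.trans (le_of_eq ?_)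
            ring
        _ = 4 * (Real.log T * T) * ∑ j ∈ Finset.range J, wt j *
              N2 (M₀ ^ 3 * M) (cv (q j) (cv (q j) (cv (q j) e))) := by rw [Finset.mul_sum]
        _ ≤ 4 * (Real.log T * T) * (C₂ * n2) := mul_le_mul_of_nonneg_left hmean (by positivity)
    rw [hK₁]
    have b4 : 4 * (Real.log T * T) * (C₂ * n2) = 4 * C₂ * Λ := by rw [hΛ]; ring
    rw [b4] at b3
    linarith [(by ring : 2 * A * (C₁ * Λ) + (4 * A * S3 + 2 * C₂) * (2 * Λ) +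
      4 * C₂ * Λ = (2 * A * C₁ + 8 * A * S3 + 8 * C₂) * Λ)]
  -- the property
  obtain ⟨P, hP⟩ : ∃ P : ℝ → Prop, ∀ t, P t ↔ g t ≤ K := ⟨_, fun _ => Iff.rfl⟩
  have hbad : ∑ s ∈ (ZI d T).filter (fun s => ¬ P s.im), w M e s.im ≤ c₁ * Lam T M e := by
    have e0 : ∑ s ∈ (ZI d T).filter (fun s => ¬ P s.im), w M e s.im ≤ ∑ s ∈ ZI d T, 1 / K * (g s.im * ‖F s.im‖ ^ 2) := by
      refine le_trans (Finset.sum_le_sum (g := fun s => 1 / K * (g s.im * ‖F s.im‖ ^ 2)) fun s hs => ?_)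
        (Finset.sum_le_sum_of_subset_of_nonneg (Finset.filter_subset _ _) fun s _ _ => ?_)
      · obtain ⟨hs1, hs2⟩ := Finset.mem_filter.mp hs
        rw [hP, not_le] at hs2
        have h1 : K * ‖F s.im‖ ^ 2 ≤ g s.im * ‖F s.im‖ ^ 2 := mul_le_mul_of_nonneg_right hs2.le (by positivity)
        rw [one_div, ← div_eq_inv_mul, le_div_iff₀ hK0]
        unfold w
        linarith
      · have := hg0 s.im
        positivity
    refine e0.trans ?_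
    rw [← Finset.mul_sum]
    have e2 := mul_le_mul_of_nonneg_left hint (by positivity : 0 ≤ 1 / K)
    have e6 : 1 / K * K₁ ≤ c₁ := by
      rw [one_div, ← div_eq_inv_mul, div_le_iff₀ hK0, hK]
      have : c₁ * (K₁ / c₁ + 1) = K₁ + c₁ := by field_simp
      linarith
    have e7 := mul_le_mul_of_nonneg_right e6 hΛ0
    have e8 : Lam T M e = Λ := rfl
    rw [e8]
    linarith
  -- the pointwise inequality
  have hpt : ∀ n, n ∈ gdi d T → P (ord n) → Real.log T ^ (2 * lam) * (Real.exp (-K) * w M e (ord n)) ≤ dz (ord n) ^ (2 * lam) := by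
    intro n hn hPn
    rw [hP] at hPn
    have hder := dz_pos hT1 hn
    set t := ord n with ht
    by_cases hF0 : F t = 0
    · have : w M e t = 0 := by
        unfold w
        change ‖F t‖ ^ 2 = 0
        rw [hF0]
        simp
      rw [this, mul_zero, mul_zero]
      positivity
    have hEsq : w M e t = Real.exp (2 * Real.log ‖F t‖) := by
      rw [two_mul, Real.exp_add, Real.exp_log (norm_pos_iff.mpr hF0)]
      unfold w
      rw [sq]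
    rw [hEsq, Real.rpow_def_of_pos hder, Real.rpow_def_of_pos hL0, ← Real.exp_add, ← Real.exp_add]
    apply Real.exp_le_exp.mpr
    have u1 := hd'.up t hF0
    have u2 := abs_le.mp (EP_PA kk αα hk X t)
    have u3 : kk 0 = lam := rfl
    have u5 : αα 0 = 0 := rfl
    rw [Fin.sum_univ_one, u3, u5, add_zero] at u2
    have u4 : ∑ j ∈ Finset.range J, 2 * wt j * ‖dp M₀ (q j) t‖ ^ 6 =
        2 * ∑ j ∈ Finset.range J, wt j * ‖dp M₀ (q j) t‖ ^ 6 := by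
      rw [Finset.mul_sum]
      exact Finset.sum_congr rfl fun j _ => by ring
    have v1 : -(|lam| * Ds t) ≤
        lam * (Real.log (dz t) - Real.log (Real.log T) - EP X t) := by
      rw [hDsd, ← abs_mul]
      exact neg_abs_le _
    have hDs0 : 0 ≤ Ds t := by rw [hDsd]; exact abs_nonneg _
    have v2 : |lam| * Ds t ≤ A * Ds t := mul_le_mul_of_nonneg_right hlam hDs0
    rw [hg] at hPn
    simp only at hPn
    rw [u4] at hPn
    linarith [u2.1]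
  have hM1θ : (M : ℝ) ≤ T ^ θ₁ := hM7.trans (Real.rpow_le_rpow_of_exponent_le hT1 hδ3)
  have hfin := hav G hG hGI M (hM1θ.trans (Real.rpow_le_rpow_of_exponent_le hT1 hθ₁a)) e
    (hmass M (hM1θ.trans (Real.rpow_le_rpow_of_exponent_le hT1 hθ₁b)) e) P hbad
    (fun n => v n * (Real.log T ^ (2 * lam) * Real.exp (-K))⁻¹) (fun n hn hPn => by
      obtain ⟨j, hj, hj2⟩ := hv n hn
      refine ⟨j, hj, ?_⟩
      have h1 := hpt (n + j) (hG n hn j hj) (hPn j hj)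
      rw [← div_eq_mul_inv, le_div_iff₀ (by positivity)]
      linarith)
  rw [← Finset.sum_mul, ← div_eq_mul_inv, le_div_iff₀ (by positivity)] at hfin
  have hsub : ∑ n ∈ G.filter (fun n => ∀ j < k, P (ord (n + j))), v n ≤ ∑ n ∈ G, v n :=
    Finset.sum_le_sum_of_subset_of_nonneg (Finset.filter_subset _ _) fun n _ _ => hv0 n
  refine le_trans ?_ (hfin.trans hsub)
  have e5 : Real.log T ^ ((lam + 1) ^ 2) = Real.log T * Real.log T ^ (2 * lam) * Real.log T ^ (lam ^ 2) := by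
    have : (lam + 1) ^ 2 = 1 + 2 * lam + lam ^ 2 := by ring
    rw [this, Real.rpow_add hL0, Real.rpow_add hL0, Real.rpow_one]
  have e6 : Lam T M e = Real.log T * (T * n2) := rfl
  rw [e5, e6]
  have h9 := mul_le_mul_of_nonneg_left hlow2 (show 0 ≤ c₁ * (Real.log T * T) * (Real.log T ^ (2 * lam) * Real.exp (-K)) by positivity)
  calc Real.exp (-K) * c₁ * (c₂ * Real.exp (-(A ^ 2 * C₄))) * T * (Real.log T * Real.log T ^ (2 * lam) * Real.log T ^ (lam ^ 2))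
      = c₁ * (Real.log T * T) * (Real.log T ^ (2 * lam) * Real.exp (-K)) * (c₂ * Real.exp (-(A ^ 2 * C₄)) * Real.log T ^ (lam ^ 2)) := by ring
    _ ≤ _ := h9
    _ = _ := by ring

end

end Pool.Agent.H4.MT
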