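import Pool.Agent.H4.MT.Stm
import Pool.Agent.H4.MT.Lbr
import Pool.Agent.H4.MT.Thk1

set_option autoImplicit false

/-! The simple zeros near the events. -/

namespace Pool.Agent.H4.MT

open Filter Topology MeasureTheory Complex
open Pool.Agent.Q97.UM
open Pool.Agent.H4.MZ (Rr Ri Rr_meas Ri_meas)
open Pool.Agent.H4.IX (ord In gdi Gap UD run ord_mono gdi_In ord_mem)
open Pool.Agent.H4.PX (w dz)
open Pool.Agent.H4.SC (US St US_meas uU)
open H370 (cMTinv)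

noncomputable section

/-- the event -/
def Ez (r al : ℝ) (z : ℂ) (T : ℝ) : Set ℝ := Set.Icc T (2 * T) ∩ {t | |Rr al T t - z.re| ≤ r ∧ |Ri al T t - z.im| ≤ r}

lemma Ez_meas (r al : ℝ) (z : ℂ) (T : ℝ) : MeasurableSet (Ez r al z T) := by
  have h1 : Measurable fun t => |Rr al T t - z.re| := ((Rr_meas al T).sub_const _).abs
  have h2 : Measurable fun t => |Ri al T t - z.im| := ((Ri_meas al T).sub_const _).abs
  exact measurableSet_Icc.inter ((measurableSet_le h1 measurable_const).inter (measurableSet_le h2 measurable_const))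

open Classical in
/-- the starting points near the event -/
def GG (k : ℕ) (d δ r al : ℝ) (I : Set ℕ) (z : ℂ) (T : ℝ) : Finset ℕ :=
  (Sp k d δ I T).filter (fun n => ∃ t ∈ Ez r al z T, ord n ≤ t ∧ t ≤ ord n + δ / Real.log T)

/-- **the simple zeros near the events** -/
theorem com (hT : S_TAIL) (hZ : S_ZER) {k : ℕ} (hk : 1 ≤ k) {I : Set ℕ} {β ε₀ : ℝ} (hG : Gap k I) (hI : UD β I)
    (hβ : (cMTinv - 1) / 2 < β) (hε₀ : 0 < ε₀) :
    ∃ d δ r : ℝ, 0 < d ∧ d ≤ 1 ∧ 0 < δ ∧ δ ≤ ε₀ ∧ 0 < r ∧ ∀ R : ℝ, 0 ≤ R → ∃ A₀ : ℝ, 4 ≤ A₀ ∧ ∀ al : ℝ, A₀ ≤ al →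
      (∃ c θ : ℝ, 0 < c ∧ 0 < θ ∧ θ ≤ 1 / 40 ∧ ∀ᶠ T : ℝ in atTop, ∀ z : ℂ, ‖z‖ ≤ R → ∀ M : ℕ, (M : ℝ) ≤ T ^ θ → ∀ b : ℕ → ℂ,
        c * (Real.log T * (T * N2 M b)) ≤ ∑ n ∈ GG k d δ r al I z T, w M b (ord n)) ∧
      (∀ A : ℝ, 1 ≤ A → ∃ c₂ : ℝ, 0 < c₂ ∧ ∀ᶠ T : ℝ in atTop, ∀ z : ℂ, ‖z‖ ≤ R → ∀ lam : ℝ, |lam| ≤ A →
        ∀ v : ℕ → ℝ, (∀ n, 0 ≤ v n) → (∀ n ∈ GG k d δ r al I z T, ∃ j < k, dz (ord (n + j)) ^ (2 * lam) ≤ v n) →
        c₂ * T * Real.log T ^ ((lam + 1) ^ 2) ≤ ∑ n ∈ GG k d δ r al I z T, v n) := by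
  classical
  obtain ⟨d, δ, c, θ₀, hd0, hd1, hδ0, hδε, hδd, hc, hθ₀, hθ₀1, hth⟩ := thickJ hk hG hI hβ hε₀
  refine ⟨d, δ, 1 + 8 / Real.sqrt c, hd0, hd1, hδ0, hδε, by positivity, fun R hR => ?_⟩
  obtain ⟨c₁, A₀, hc₁, hA₀, hT⟩ := hT c θ₀ R hc hθ₀ hR
  obtain ⟨θ₂, hθ₂, hθ₂1, hZ⟩ := hZ δ c₁ hδ0 (by linarith) hc₁
  refine ⟨A₀, hA₀, fun al hal => ?_⟩
  obtain ⟨θ₁, hθ₁, hθ₁1, hT⟩ := hT al hal
  obtain ⟨θ, hθ⟩ : ∃ θ, θ = min θ₁ θ₂ := ⟨_, rfl⟩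
  have hθ0 : 0 < θ := by rw [hθ]; positivity
  have hθa : θ ≤ θ₁ := by rw [hθ]; exact min_le_left _ _
  have hθb : θ ≤ θ₂ := by rw [hθ]; exact min_le_right _ _
  have key : ∀ᶠ T : ℝ in atTop, ∀ z : ℂ, ‖z‖ ≤ R → ∀ M : ℕ, (M : ℝ) ≤ T ^ θ → ∀ b : ℕ → ℂ,
      c₁ / (2 * δ) * (Real.log T * (T * N2 M b)) ≤ ∑ n ∈ GG k d δ (1 + 8 / Real.sqrt c) al I z T, w M b (ord n) := by
    filter_upwards [hth, hZ, hT, eventually_ge_atTop (16 : ℝ), Real.tendsto_log_atTop.eventually_ge_atTop 1] with T hth hZ hT hT16 hL1 z hz M hM b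
    have hT1 : (1 : ℝ) ≤ T := by linarith
    have hL0 : 0 < Real.log T := by linarith
    have hdL : d / Real.log T ≤ 1 := by rw [div_le_one hL0]; linarith
    have hδL : δ / Real.log T ≤ d / Real.log T := div_le_div_of_nonneg_right hδd.le hL0.le
    have hSp : ∀ n ∈ Sp k d δ I T, n ∈ St k d I T ∧ ord n + δ / Real.log T ≤ 2 * T := fun n hn => Finset.mem_filter.1 hn
    have hgd : ∀ n ∈ Sp k d δ I T, n ∈ gdi d T := by
      intro n hn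
      have h3 := (Finset.mem_filter.1 (hSp n hn).1).2
      have := h3.2 0 (by omega)
      rwa [add_zero] at this
    have hInT : ∀ n ∈ Sp k d δ I T, n ∈ In T := fun n hn => (Finset.mem_filter.1 (hSp n hn).1).1
    have hsep : ∀ n ∈ Sp k d δ I T, ∀ m ∈ Sp k d δ I T, n < m → ord n + δ / Real.log T ≤ ord m := by
      intro i hi j hj hij
      have h3 := (gdi_sep hT16 hdL (hgd i hi) (hgd j hj) (by omega)).2.2
      have h4 : ord i ≤ ord j := ord_mono (T := T) (by linarith) (hInT i hi) (hInT j hj) hij.le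
      rw [abs_sub_comm, abs_of_nonneg (by linarith)] at h3
      linarith
    have hin : ∀ n ∈ Sp k d δ I T, T ≤ ord n ∧ ord n + δ / Real.log T ≤ 2 * T := by
      intro n hn
      exact ⟨(ord_mem (by linarith : (0 : ℝ) ≤ T) (hInT n hn)).1.le, (hSp n hn).2⟩
    have hST : US (Sp k d δ I T) (δ / Real.log T) ⊆ Set.Icc T (2 * T) := by
      rintro t ⟨n, hn, h1, h2⟩
      obtain ⟨g1, g2⟩ := hin n hn
      exact ⟨by linarith, by linarith⟩
    have hUm := US_meas (Sp k d δ I T) (δ / Real.log T)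
    have hthick : ∀ M : ℕ, (M : ℝ) ≤ T ^ θ₀ → ∀ b : ℕ → ℂ, c * (T * N2 M b) ≤ ∫ t in US (Sp k d δ I T) (δ / Real.log T), ‖dp M b t‖ ^ 2 := by
      intro M hM b
      refine (hth M hM b).trans (le_of_eq ?_)
      have e : (fun t => uU (Sp k d δ I T) (δ / Real.log T) t * w M b t) = (US (Sp k d δ I T) (δ / Real.log T)).indicator (fun t => ‖dp M b t‖ ^ 2) := by
        funext t
        unfold uU w
        by_cases h : t ∈ US (Sp k d δ I T) (δ / Real.log T)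
        · rw [Set.indicator_of_mem h, Set.indicator_of_mem h, one_mul]
        · rw [Set.indicator_of_notMem h, Set.indicator_of_notMem h, zero_mul]
      rw [e, intervalIntegral.integral_of_le (by linarith), ← integral_Icc_eq_integral_Ioc, setIntegral_indicator hUm,
        Set.inter_eq_self_of_subset_right hST]
    have h1 := hT (US (Sp k d δ I T) (δ / Real.log T)) hUm hST hthick z hz M (hM.trans (Real.rpow_le_rpow_of_exponent_le hT1 hθa)) b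
    have e2 : US (Sp k d δ I T) (δ / Real.log T) ∩ {t | |Rr al T t - z.re| ≤ 1 + 8 / Real.sqrt c ∧ |Ri al T t - z.im| ≤ 1 + 8 / Real.sqrt c} =
        US (Sp k d δ I T) (δ / Real.log T) ∩ Ez (1 + 8 / Real.sqrt c) al z T := by
      ext t
      exact ⟨fun h => ⟨h.1, hST h.1, h.2⟩, fun h => ⟨h.1, h.2.2⟩⟩
    rw [e2] at h1
    have h2 := hZ (Sp k d δ I T) (Ez (1 + 8 / Real.sqrt c) al z T) (Ez_meas _ _ _ _) hin hsep M
      (hM.trans (Real.rpow_le_rpow_of_exponent_le hT1 hθb)) b h1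
    exact h2
  refine ⟨⟨c₁ / (2 * δ), θ, by positivity, hθ0, hθa.trans hθ₁1, key⟩, fun A hA => ?_⟩
  obtain ⟨c₂, hc₂, hL⟩ := lbr k (c := c₁ / (2 * δ)) (d := d) (θ₀ := θ) (by positivity) hd0 hθ0 A hA
  refine ⟨c₂, hc₂, ?_⟩
  filter_upwards [key, hL] with T key hL z hz lam hlam v hv0 hv
  refine hL (GG k d δ (1 + 8 / Real.sqrt c) al I z T) (fun n hn => ?_) (fun n hn => ?_) (key z hz) lam hlam v hv0 hv
  · exact (Finset.mem_filter.1 (Finset.mem_filter.1 (Finset.mem_filter.1 hn).1).1).2.2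
  · exact (Finset.mem_filter.1 (Finset.mem_filter.1 (Finset.mem_filter.1 hn).1).1).1

end

end Pool.Agent.H4.MT
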