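import Pool.Agent.H4.MT.Stm

set_option autoImplicit false

/-! General mean squares of polynomials in the prime sum. -/

namespace Pool.Agent.H4.MT

open Filter Topology MeasureTheory Complex
open scoped ComplexConjugate
open Pool.Agent.Q97.UM
open Pool.Agent.H4.MZ (PS Q4 S_MOM)
open Pool.Agent.H4.LG (N2_nn dp_c)

noncomputable section

/-- the expansion -/
lemma gm_exp (m : ℕ) (g : ℕ → ℂ) {P : ℝ → ℂ} {W : ℝ → ℝ} (hP : Continuous P) (hW : Continuous W) (a b : ℝ) :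
    ((∫ t in a..b, ‖∑ i ∈ Finset.range (m + 1), g i * P t ^ i‖ ^ 2 * W t : ℝ) : ℂ) =
      ∑ i ∈ Finset.range (m + 1), ∑ l ∈ Finset.range (m + 1), g i * conj (g l) * ∫ t in a..b, P t ^ i * conj (P t) ^ l * ((W t : ℝ) : ℂ) := by
  have hc : ∀ i l : ℕ, Continuous fun t => P t ^ i * conj (P t) ^ l * ((W t : ℝ) : ℂ) := fun i l =>
    ((hP.pow i).mul ((Complex.continuous_conj.comp hP).pow l)).mul (Complex.continuous_ofReal.comp hW)
  have e1 : ∀ t, ((‖∑ i ∈ Finset.range (m + 1), g i * P t ^ i‖ ^ 2 * W t : ℝ) : ℂ) =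
      ∑ i ∈ Finset.range (m + 1), ∑ l ∈ Finset.range (m + 1), g i * conj (g l) * (P t ^ i * conj (P t) ^ l * ((W t : ℝ) : ℂ)) := by
    intro t
    have h1 : ((‖∑ i ∈ Finset.range (m + 1), g i * P t ^ i‖ ^ 2 : ℝ) : ℂ) =
        (∑ i ∈ Finset.range (m + 1), g i * P t ^ i) * conj (∑ i ∈ Finset.range (m + 1), g i * P t ^ i) := by
      rw [Complex.mul_conj, Complex.normSq_eq_norm_sq]
    rw [Complex.ofReal_mul, h1, map_sum, Finset.sum_mul_sum, Finset.sum_mul]
    refine Finset.sum_congr rfl fun i _ => ?_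
    rw [Finset.sum_mul]
    refine Finset.sum_congr rfl fun l _ => ?_
    rw [map_mul, map_pow]
    ring
  rw [← intervalIntegral.integral_ofReal]
  have e2 : ∫ t in a..b, ((‖∑ i ∈ Finset.range (m + 1), g i * P t ^ i‖ ^ 2 * W t : ℝ) : ℂ) =
      ∫ t in a..b, ∑ i ∈ Finset.range (m + 1), ∑ l ∈ Finset.range (m + 1), g i * conj (g l) * (P t ^ i * conj (P t) ^ l * ((W t : ℝ) : ℂ)) :=
    intervalIntegral.integral_congr fun t _ => e1 t
  rw [e2, intervalIntegral.integral_finsetSum]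
  · refine Finset.sum_congr rfl fun i _ => ?_
    rw [intervalIntegral.integral_finsetSum]
    · refine Finset.sum_congr rfl fun l _ => ?_
      rw [intervalIntegral.integral_const_mul]
    · intro l _
      exact (continuous_const.mul (hc i l)).intervalIntegrable _ _
  · intro i _
    exact (continuous_finsetSum _ fun l _ => continuous_const.mul (hc i l)).intervalIntegrable _ _

theorem t_GMb (hM : S_MOM) : S_GM := by
  intro m D τ hD hτ
  obtain ⟨C, hC, hM⟩ := hM m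
  obtain ⟨E, hE⟩ : ∃ E : ℝ, E = ((m : ℝ) + 1) ^ 2 * D ^ 2 * C * 4 ^ m + 1 := ⟨_, rfl⟩
  have hE0 : 0 < E := by rw [hE]; positivity
  have hT : ∀ᶠ T : ℝ in atTop, T ^ (-(1 / 2) : ℝ) ≤ τ / (2 * E) :=
    (tendsto_rpow_neg_atTop (by norm_num : (0 : ℝ) < 1 / 2)).eventually_le_const (by positivity)
  refine ⟨τ / (2 * E), by positivity, ?_⟩
  filter_upwards [hM, hT, eventually_gt_atTop (0 : ℝ)] with T hM hT hT0 N Y α b hY hlen hPS hV3 hQ g hg
  obtain ⟨X, hX⟩ : ∃ X, X = T * N2 N b := ⟨_, rfl⟩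
  have hX0 : 0 ≤ X := by rw [hX]; exact mul_nonneg hT0.le (N2_nn N b)
  obtain ⟨V, hV⟩ : ∃ V, V = N2 Y α := ⟨_, rfl⟩
  have hV0 : 0 ≤ V := by rw [hV]; exact N2_nn Y α
  have hM' := hM N Y α b hY hlen hPS
  rw [← hX, ← hV] at hM' ⊢
  rw [← hV] at hV3
  have hexp := gm_exp m g (W := fun t => ‖dp N b t‖ ^ 2) (dp_c Y α) ((dp_c N b).norm.pow 2) T (2 * T)
  beta_reduce at hexp
  have hmain : (((∑ i ∈ Finset.range (m + 1), ‖g i‖ ^ 2 * (i.factorial : ℝ) * V ^ i) * X : ℝ) : ℂ) =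
      ∑ i ∈ Finset.range (m + 1), ∑ l ∈ Finset.range (m + 1), g i * conj (g l) *
        (if i = l then (((i.factorial : ℝ) * V ^ i * X : ℝ) : ℂ) else 0) := by
    rw [Complex.ofReal_mul, Complex.ofReal_sum, Finset.sum_mul]
    refine Finset.sum_congr rfl fun i hi => ?_
    rw [Finset.sum_eq_single i]
    · rw [if_pos rfl, Complex.mul_conj, Complex.normSq_eq_norm_sq]
      push_cast
      ring
    · intro l _ hl
      rw [if_neg (Ne.symm hl), mul_zero]
    · intro h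
      exact absurd hi h
  have herr : ‖((∫ t in T..(2 * T), ‖∑ i ∈ Finset.range (m + 1), g i * dp Y α t ^ i‖ ^ 2 * ‖dp N b t‖ ^ 2 : ℝ) : ℂ) -
      (((∑ i ∈ Finset.range (m + 1), ‖g i‖ ^ 2 * (i.factorial : ℝ) * V ^ i) * X : ℝ) : ℂ)‖ ≤ τ * X := by
    rw [hmain]
    have hexp' := hexp
    rw [hexp', ← Finset.sum_sub_distrib]
    have hbd : ∀ i ∈ Finset.range (m + 1), ‖(∑ l ∈ Finset.range (m + 1), g i * conj (g l) * ∫ t in T..(2 * T),
        dp Y α t ^ i * conj (dp Y α t) ^ l * (((‖dp N b t‖ ^ 2 : ℝ)) : ℂ)) -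
        ∑ l ∈ Finset.range (m + 1), g i * conj (g l) * (if i = l then (((i.factorial : ℝ) * V ^ i * X : ℝ) : ℂ) else 0)‖ ≤
        ((m : ℝ) + 1) * (D ^ 2 * (C * (τ / E) * 4 ^ m * X)) := by
      intro i hi
      rw [← Finset.sum_sub_distrib]
      refine (norm_sum_le _ _).trans ?_
      have h1 : ∀ l ∈ Finset.range (m + 1), ‖g i * conj (g l) * (∫ t in T..(2 * T),
          dp Y α t ^ i * conj (dp Y α t) ^ l * (((‖dp N b t‖ ^ 2 : ℝ)) : ℂ)) -
          g i * conj (g l) * (if i = l then (((i.factorial : ℝ) * V ^ i * X : ℝ) : ℂ) else 0)‖ ≤ D ^ 2 * (C * (τ / E) * 4 ^ m * X) := by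
        intro l hl
        rw [← mul_sub, norm_mul, norm_mul, RCLike.norm_conj]
        have h2 := hM' i l (by rw [Finset.mem_range] at hi; omega) (by rw [Finset.mem_range] at hl; omega)
        have h3 : ‖g i‖ * ‖g l‖ ≤ D ^ 2 := by
          rw [sq]
          exact mul_le_mul (hg i) (hg l) (norm_nonneg _) hD
        refine mul_le_mul h3 (h2.trans ?_) (norm_nonneg _) (by positivity)
        have h4 : Q4 Y α + T ^ (-(1 / 2) : ℝ) ≤ τ / E := by
          have : τ / E = τ / (2 * E) + τ / (2 * E) := by field_simp; ring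
          linarith
        have h5 : (1 + V) ^ m ≤ 4 ^ m := pow_le_pow_left₀ (by linarith) (by linarith) m
        have h6 : C * (Q4 Y α + T ^ (-(1 / 2) : ℝ)) ≤ C * (τ / E) := mul_le_mul_of_nonneg_left h4 hC
        exact mul_le_mul_of_nonneg_right (mul_le_mul h6 h5 (by positivity) (by positivity)) hX0
      refine (Finset.sum_le_sum h1).trans (le_of_eq ?_)
      rw [Finset.sum_const, Finset.card_range, nsmul_eq_mul]
      push_cast
      ring
    refine (norm_sum_le _ _).trans ((Finset.sum_le_sum hbd).trans ?_)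
    rw [Finset.sum_const, Finset.card_range, nsmul_eq_mul]
    push_cast
    have h7 : ((m : ℝ) + 1) * (((m : ℝ) + 1) * (D ^ 2 * (C * (τ / E) * 4 ^ m * X))) = ((((m : ℝ) + 1) ^ 2 * D ^ 2 * C * 4 ^ m) / E) * (τ * X) := by
      field_simp
    rw [h7]
    have h8 : (((m : ℝ) + 1) ^ 2 * D ^ 2 * C * 4 ^ m) / E ≤ 1 := by
      rw [div_le_one hE0, hE]
      linarith
    have h9 := mul_le_mul_of_nonneg_right h8 (mul_nonneg hτ.le hX0)
    linarith
  rw [← Complex.ofReal_sub, Complex.norm_real, Real.norm_eq_abs] at herr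
  exact herr

end

end Pool.Agent.H4.MT
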