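import Pool.Agent.H4.MT.Stm
import Pool.Agent.H4.MZ.Mom

set_option autoImplicit false

/-! Project MT, PROD: the product is a Dirichlet polynomial. -/

namespace Pool.Agent.H4.MT

open Filter Topology MeasureTheory Complex
open Pool.Agent.Q97.UM
open Pool.Agent.H4.MZ (PS Q4 pw S_ALG)

noncomputable section

theorem t_PROD : S_ALG → S_PROD := by
  intro hALG K N Y α b μ hY hPS
  -- the restriction of `b`
  obtain ⟨b', hb'⟩ : ∃ b' : ℕ → ℂ, b' = fun n => if 1 ≤ n ∧ n ≤ N then b n else 0 := ⟨_, rfl⟩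
  have hb1 : ∀ n, b' n ≠ 0 → 1 ≤ n ∧ n ≤ N := by
    intro n hn
    by_contra hcon
    apply hn
    rw [hb']
    simp only [hcon, if_false]
  have hb2 : ∀ t, dp N b' t = dp N b t := by
    intro t
    unfold dp
    refine Finset.sum_congr rfl fun n hn => ?_
    rw [Finset.mem_Icc] at hn
    rw [hb']
    simp only [hn, and_self, if_true]
  obtain ⟨a1, a2, -, -, -⟩ := hALG N Y α b' hY hPS hb1
  have h1 : ∀ j ≤ K, ∀ t, dp (Y ^ K * N) (cv (pw α j) b') t = dp Y α t ^ j * dp N b t := by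
    intro j hj t
    rw [← hb2 t, ← a1 j t]
    exact Pool.Agent.H4.MZ.dp_ext' _ _ _
      (Nat.mul_le_mul_right _ (Nat.pow_le_pow_right hY hj)) (fun n hn => a2 j n hn) t
  refine ⟨fun n => ∑ j ∈ Finset.range (K + 1), μ ^ j / ((j.factorial : ℕ) : ℂ) * cv (pw α j) b' n,
    fun t => ?_⟩
  have h2 : dp (Y ^ K * N) (fun n => ∑ j ∈ Finset.range (K + 1),
      μ ^ j / ((j.factorial : ℕ) : ℂ) * cv (pw α j) b' n) t =
      ∑ j ∈ Finset.range (K + 1), μ ^ j / ((j.factorial : ℕ) : ℂ) *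
        dp (Y ^ K * N) (cv (pw α j) b') t := by
    unfold dp
    simp only [Finset.mul_sum, Finset.sum_mul]
    rw [Finset.sum_comm]
    refine Finset.sum_congr rfl fun j _ => Finset.sum_congr rfl fun n _ => ?_
    ring
  rw [h2]
  unfold FE
  rw [Finset.sum_mul]
  refine Finset.sum_congr rfl fun j hj => ?_
  rw [h1 j (by have := Finset.mem_range.1 hj; omega) t, mul_pow]
  ring

end

end Pool.Agent.H4.MT
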