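import Pool.Agent.H4.MT.Stm
import Pool.Graph.R_pool_sql_team_seeded_3997aac3.Q84.UM.DPM

set_option autoImplicit false

/-! Project MT (helper4), module TILT (helper61): moments under the tilted weight. -/

namespace Pool.Agent.H4.MT

open Filter Topology MeasureTheory Complex
open scoped ComplexConjugate
open Pool.Agent.Q97.UM
open Pool.Agent.H4.MZ (PS Q4)

noncomputable section

/-- a sum with a cutoff -/
lemma sum_cut {M : Type*} [AddCommMonoid M] {K m : ℕ} (hm : K + 1 ≤ m) (f : ℕ → M) (e : M) :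
    ∑ i ∈ Finset.range (m + 1), (if i ≤ K then f i else if i = K + 1 then e else 0) =
      ∑ i ∈ Finset.range (K + 1), f i + e := by
  have h1 : ∑ i ∈ Finset.range (m + 1), (if i ≤ K then f i else if i = K + 1 then e else 0) =
      ∑ i ∈ Finset.range (K + 2), (if i ≤ K then f i else if i = K + 1 then e else 0) := by
    symm
    refine Finset.sum_subset (Finset.range_mono (by omega)) fun i _ hi => ?_
    rw [Finset.mem_range] at hi
    rw [if_neg (by omega), if_neg (by omega)]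
  rw [h1, Finset.sum_range_succ]
  congr 1
  · refine Finset.sum_congr rfl fun i hi => ?_
    rw [Finset.mem_range] at hi
    rw [if_pos (by omega)]
  · rw [if_neg (by omega), if_pos rfl]

/-- the coefficients of the product with `P - c` -/
def hh (c μ : ℂ) : ℕ → ℂ
  | 0 => -c
  | (i + 1) => μ ^ i / ((i.factorial : ℕ) : ℂ) - c * μ ^ (i + 1) / (((i + 1).factorial : ℕ) : ℂ)

lemma poly1 (K : ℕ) (μ P : ℂ) : ∑ j ∈ Finset.range (K + 1), (μ * P) ^ j / ((j.factorial : ℕ) : ℂ) =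
    ∑ j ∈ Finset.range (K + 1), μ ^ j / ((j.factorial : ℕ) : ℂ) * P ^ j := by
  refine Finset.sum_congr rfl fun j _ => ?_
  rw [mul_pow]
  ring

lemma poly2 (K : ℕ) (c μ P : ℂ) : (∑ j ∈ Finset.range (K + 1), (μ * P) ^ j / ((j.factorial : ℕ) : ℂ)) * (P - c) =
    ∑ i ∈ Finset.range (K + 1), hh c μ i * P ^ i + μ ^ K / ((K.factorial : ℕ) : ℂ) * P ^ (K + 1) := by
  induction K with
  | zero => simp [hh]; ring
  | succ K ih =>
    rw [Finset.sum_range_succ, add_mul, ih, Finset.sum_range_succ (n := K + 1)]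
    simp only [hh]
    rw [mul_pow]
    ring

lemma hh_succ (V : ℝ) (μ : ℂ) (i : ℕ) : hh ((V : ℂ) * conj μ) μ (i + 1) =
    μ ^ i / (((i + 1).factorial : ℕ) : ℂ) * (((i : ℝ) + 1 - ‖μ‖ ^ 2 * V : ℝ) : ℂ) := by
  have h1 : conj μ * μ = ((‖μ‖ ^ 2 : ℝ) : ℂ) := by
    rw [mul_comm, Complex.mul_conj, Complex.normSq_eq_norm_sq]
  have h2 : (((i + 1).factorial : ℕ) : ℂ) = ((i : ℂ) + 1) * ((i.factorial : ℕ) : ℂ) := by
    rw [Nat.factorial_succ]
    push_cast
    ring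
  have h3 : ((i.factorial : ℕ) : ℂ) ≠ 0 := by exact_mod_cast i.factorial_ne_zero
  have h4 : ((i : ℂ) + 1) ≠ 0 := by exact_mod_cast i.succ_ne_zero
  simp only [hh]
  rw [h2]
  have h5 : (V : ℂ) * conj μ * μ ^ (i + 1) = ((‖μ‖ ^ 2 : ℝ) : ℂ) * V * μ ^ i := by
    rw [pow_succ, ← h1]
    ring
  rw [h5]
  push_cast
  field_simp

lemma norm_hh (V : ℝ) (μ : ℂ) (i : ℕ) : ‖hh ((V : ℂ) * conj μ) μ (i + 1)‖ ^ 2 =
    (‖μ‖ ^ 2) ^ i / ((i + 1).factorial : ℝ) ^ 2 * ((i : ℝ) + 1 - ‖μ‖ ^ 2 * V) ^ 2 := by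
  rw [hh_succ, norm_mul, norm_div, norm_pow, Complex.norm_natCast, Complex.norm_real, mul_pow, div_pow,
    Real.norm_eq_abs, sq_abs, ← pow_mul, ← pow_mul, mul_comm i 2]

lemma norm_pow_div (μ : ℂ) (i : ℕ) : ‖μ ^ i / ((i.factorial : ℕ) : ℂ)‖ ^ 2 = (‖μ‖ ^ 2) ^ i / (i.factorial : ℝ) ^ 2 := by
  rw [norm_div, norm_pow, Complex.norm_natCast, div_pow, ← pow_mul, ← pow_mul, mul_comm i 2]

lemma norm_sum1 (K : ℕ) (V : ℝ) (μ : ℂ) :
    ∑ i ∈ Finset.range (K + 1), ‖μ ^ i / ((i.factorial : ℕ) : ℂ)‖ ^ 2 * (i.factorial : ℝ) * V ^ i = EK K (‖μ‖ ^ 2 * V) := by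
  unfold EK
  refine Finset.sum_congr rfl fun i _ => ?_
  have h3 : (i.factorial : ℝ) ≠ 0 := by exact_mod_cast i.factorial_ne_zero
  rw [norm_pow_div, mul_pow]
  field_simp

lemma norm_sum2 (K : ℕ) (V : ℝ) (μ : ℂ) :
    ∑ i ∈ Finset.range (K + 1), ‖hh ((V : ℂ) * conj μ) μ i‖ ^ 2 * (i.factorial : ℝ) * V ^ i +
      ‖μ ^ K / ((K.factorial : ℕ) : ℂ)‖ ^ 2 * ((K + 1).factorial : ℝ) * V ^ (K + 1) =
      V * (EK K (‖μ‖ ^ 2 * V) + (‖μ‖ ^ 2 * V) ^ (K + 1) / (K.factorial : ℝ)) := by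
  induction K with
  | zero =>
    simp only [zero_add, Finset.range_one, Finset.sum_singleton, hh, norm_neg, norm_mul, Complex.norm_real,
      RCLike.norm_conj, Nat.factorial_zero, Nat.factorial_one, Nat.cast_one, pow_zero, EK, pow_one, div_one, mul_one,
      norm_one, one_pow, mul_pow, Real.norm_eq_abs, sq_abs]
    ring
  | succ K ih =>
    have h3 : (K.factorial : ℝ) ≠ 0 := by exact_mod_cast K.factorial_ne_zero
    have h4 : ((K : ℝ) + 1) ≠ 0 := by positivity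
    have f1 : ((K + 1).factorial : ℝ) = ((K : ℝ) + 1) * (K.factorial : ℝ) := by
      rw [Nat.factorial_succ]; push_cast; ring
    have f2 : ((K + 1 + 1).factorial : ℝ) = ((K : ℝ) + 2) * (((K : ℝ) + 1) * (K.factorial : ℝ)) := by
      rw [Nat.factorial_succ, Nat.factorial_succ]; push_cast; ring
    have e1 : EK (K + 1) (‖μ‖ ^ 2 * V) = EK K (‖μ‖ ^ 2 * V) + (‖μ‖ ^ 2 * V) ^ (K + 1) / ((K + 1).factorial : ℝ) := by
      unfold EK
      rw [Finset.sum_range_succ]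
    rw [Finset.sum_range_succ, norm_hh, e1]
    have ih' : ∑ i ∈ Finset.range (K + 1), ‖hh ((V : ℂ) * conj μ) μ i‖ ^ 2 * (i.factorial : ℝ) * V ^ i =
        V * (EK K (‖μ‖ ^ 2 * V) + (‖μ‖ ^ 2 * V) ^ (K + 1) / (K.factorial : ℝ)) -
          ‖μ ^ K / ((K.factorial : ℕ) : ℂ)‖ ^ 2 * ((K + 1).factorial : ℝ) * V ^ (K + 1) := by
      linarith
    rw [ih', norm_pow_div, norm_pow_div, f1, f2]
    generalize ‖μ‖ ^ 2 = s
    rw [mul_pow, mul_pow]
    field_simp
    ring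

lemma pow4_sum {K : ℕ} (f : ℕ → ℂ) : ‖∑ j ∈ Finset.range (K + 1), f j‖ ^ 4 ≤
    ((K : ℝ) + 1) ^ 3 * ∑ j ∈ Finset.range (K + 1), ‖f j‖ ^ 4 := by
  have h1 : ‖∑ j ∈ Finset.range (K + 1), f j‖ ≤ ∑ j ∈ Finset.range (K + 1), ‖f j‖ := norm_sum_le _ _
  have h2 := sq_sum_le_card_mul_sum_sq (s := Finset.range (K + 1)) (f := fun j => ‖f j‖)
  have h3 := sq_sum_le_card_mul_sum_sq (s := Finset.range (K + 1)) (f := fun j => ‖f j‖ ^ 2)
  rw [Finset.card_range] at h2 h3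
  push_cast at h2 h3
  have h0 : 0 ≤ ∑ j ∈ Finset.range (K + 1), ‖f j‖ := Finset.sum_nonneg fun _ _ => norm_nonneg _
  have h4 : ‖∑ j ∈ Finset.range (K + 1), f j‖ ^ 2 ≤ ((K : ℝ) + 1) * ∑ j ∈ Finset.range (K + 1), ‖f j‖ ^ 2 :=
    (pow_le_pow_left₀ (norm_nonneg _) h1 2).trans h2
  have h5 : (‖∑ j ∈ Finset.range (K + 1), f j‖ ^ 2) ^ 2 ≤
      (((K : ℝ) + 1) * ∑ j ∈ Finset.range (K + 1), ‖f j‖ ^ 2) ^ 2 :=
    pow_le_pow_left₀ (by positivity) h4 2
  have h6 : ∀ j, (‖f j‖ ^ 2) ^ 2 = ‖f j‖ ^ 4 := fun j => by ring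
  simp only [h6] at h3
  calc ‖∑ j ∈ Finset.range (K + 1), f j‖ ^ 4 = (‖∑ j ∈ Finset.range (K + 1), f j‖ ^ 2) ^ 2 := by ring
    _ ≤ _ := h5
    _ = ((K : ℝ) + 1) ^ 2 * (∑ j ∈ Finset.range (K + 1), ‖f j‖ ^ 2) ^ 2 := by ring
    _ ≤ ((K : ℝ) + 1) ^ 2 * (((K : ℝ) + 1) * ∑ j ∈ Finset.range (K + 1), ‖f j‖ ^ 4) :=
        mul_le_mul_of_nonneg_left h3 (by positivity)
    _ = _ := by ring

lemma co_le {K : ℕ} {R : ℝ} (hR : 0 ≤ R) {μ : ℂ} (hμ : ‖μ‖ ≤ R) {i : ℕ} (hi : i ≤ K) :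
    ‖μ ^ i / ((i.factorial : ℕ) : ℂ)‖ ≤ (1 + R) ^ K := by
  rw [norm_div, norm_pow, Complex.norm_natCast]
  have h1 : (1 : ℝ) ≤ (i.factorial : ℝ) := by exact_mod_cast i.factorial_pos
  have h2 : ‖μ‖ ^ i ≤ (1 + R) ^ i := pow_le_pow_left₀ (norm_nonneg _) (by linarith) i
  have h3 : (1 + R) ^ i ≤ (1 + R) ^ K := pow_le_pow_right₀ (by linarith) hi
  exact (div_le_self (by positivity) h1).trans (h2.trans h3)

theorem t_TILT (hGM : S_GM) : S_TILT := by
  intro K R τ hR hτ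
  obtain ⟨D, hD⟩ : ∃ D : ℝ, D = (1 + R) ^ K + 3 * R * (1 + R) ^ K + 1 := ⟨_, rfl⟩
  have hRK : 1 ≤ (1 + R) ^ K := one_le_pow₀ (by linarith)
  have hD1 : 1 ≤ D := by
    have : 0 ≤ 3 * R * (1 + R) ^ K := by positivity
    rw [hD]; linarith
  obtain ⟨κ, hκ, hev⟩ := hGM (2 * K + 2) D τ (by linarith) hτ
  obtain ⟨C, hC⟩ : ∃ C : ℝ, C = ((K : ℝ) + 1) ^ 3 * ∑ j ∈ Finset.range (K + 1),
      ((1 + R) ^ K) ^ 4 * (((2 * j).factorial : ℝ) * 3 ^ (2 * j) + τ) := ⟨_, rfl⟩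
  have hC0 : 0 < C := by
    rw [hC]
    refine mul_pos (by positivity) (Finset.sum_pos (fun j _ => by positivity) ⟨0, by simp⟩)
  refine ⟨2 * K + 2, κ, C, by omega, by omega, hκ, hC0, ?_⟩
  filter_upwards [hev, eventually_ge_atTop (1 : ℝ)] with T hT hT1 N Y α b hY hlen hPS hV hQ μ hμ
  have hG := hT N Y α b hY hlen hPS hV hQ
  have hV0 : 0 ≤ N2 Y α := Finset.sum_nonneg fun _ _ => by positivity
  have hX0 : 0 ≤ T * N2 N b := mul_nonneg (by linarith) (Finset.sum_nonneg fun _ _ => by positivity)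
  have hP : Continuous (dp Y α) := (Pool.Agent.Q84.UM.t_DPM.2.2 Y α 0).2
  have hB : Continuous (dp N b) := (Pool.Agent.Q84.UM.t_DPM.2.2 N b 0).2
  obtain ⟨V, hVd⟩ : ∃ V, V = N2 Y α := ⟨_, rfl⟩
  rw [← hVd] at hG hV hV0 ⊢
  refine ⟨?_, ?_, ?_⟩
  · -- (1)
    have h1 := hG (fun i => if i ≤ K then μ ^ i / ((i.factorial : ℕ) : ℂ) else if i = K + 1 then 0 else 0) (by
      intro i
      split_ifs with h1 h2
      · refine (co_le hR hμ h1).trans ?_
        have : 0 ≤ 3 * R * (1 + R) ^ K := by positivity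
        rw [hD]; linarith
      · rw [norm_zero]; linarith
      · rw [norm_zero]; linarith)
    have e1 : ∀ t : ℝ, ∑ i ∈ Finset.range (2 * K + 2 + 1),
        (if i ≤ K then μ ^ i / ((i.factorial : ℕ) : ℂ) else if i = K + 1 then 0 else 0) * dp Y α t ^ i =
        FE K μ Y α t := by
      intro t
      have e2 : ∀ i, (if i ≤ K then μ ^ i / ((i.factorial : ℕ) : ℂ) else if i = K + 1 then 0 else 0) * dp Y α t ^ i =
          if i ≤ K then μ ^ i / ((i.factorial : ℕ) : ℂ) * dp Y α t ^ i else if i = K + 1 then 0 else 0 := by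
        intro i
        split_ifs <;> simp
      rw [Finset.sum_congr rfl fun i _ => e2 i, sum_cut (by omega), add_zero, FE, poly1]
    have e3 : ∑ i ∈ Finset.range (2 * K + 2 + 1),
        ‖(if i ≤ K then μ ^ i / ((i.factorial : ℕ) : ℂ) else if i = K + 1 then 0 else 0)‖ ^ 2 * (i.factorial : ℝ) * V ^ i =
        EK K (‖μ‖ ^ 2 * V) := by
      have e2 : ∀ i, ‖(if i ≤ K then μ ^ i / ((i.factorial : ℕ) : ℂ) else if i = K + 1 then 0 else 0)‖ ^ 2 *
          (i.factorial : ℝ) * V ^ i =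
          if i ≤ K then ‖μ ^ i / ((i.factorial : ℕ) : ℂ)‖ ^ 2 * (i.factorial : ℝ) * V ^ i else if i = K + 1 then 0 else 0 := by
        intro i
        split_ifs <;> simp
      rw [Finset.sum_congr rfl fun i _ => e2 i, sum_cut (by omega), add_zero, norm_sum1]
    simp only [e1, e3] at h1
    exact h1
  · -- (2)
    obtain ⟨c, hc⟩ : ∃ c : ℂ, c = (V : ℂ) * conj μ := ⟨_, rfl⟩
    have hcn : ‖c‖ ≤ 3 * R := by
      rw [hc, norm_mul, Complex.norm_real, Real.norm_of_nonneg hV0, RCLike.norm_conj]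
      exact mul_le_mul hV hμ (norm_nonneg _) (by norm_num)
    have h1 := hG (fun i => if i ≤ K then hh c μ i else if i = K + 1 then μ ^ K / ((K.factorial : ℕ) : ℂ) else 0) (by
      intro i
      split_ifs with h1 h2
      · rcases i with _ | i
        · simp only [hh, norm_neg]
          refine hcn.trans ?_
          have : 3 * R * 1 ≤ 3 * R * (1 + R) ^ K := mul_le_mul_of_nonneg_left hRK (by positivity)
          rw [hD]; linarith
        · simp only [hh]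
          have h3 := co_le hR hμ (show i ≤ K by omega)
          have h4 := co_le hR hμ h1
          refine (norm_sub_le _ _).trans ?_
          rw [mul_div_assoc, norm_mul]
          have h5 : ‖c‖ * ‖μ ^ (i + 1) / (((i + 1).factorial : ℕ) : ℂ)‖ ≤ 3 * R * (1 + R) ^ K :=
            mul_le_mul hcn h4 (norm_nonneg _) (by positivity)
          rw [hD]; linarith
      · refine (co_le hR hμ le_rfl).trans ?_
        have : 0 ≤ 3 * R * (1 + R) ^ K := by positivity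
        rw [hD]; linarith
      · rw [norm_zero]; linarith)
    have e1 : ∀ t : ℝ, ∑ i ∈ Finset.range (2 * K + 2 + 1),
        (if i ≤ K then hh c μ i else if i = K + 1 then μ ^ K / ((K.factorial : ℕ) : ℂ) else 0) * dp Y α t ^ i =
        FE K μ Y α t * (dp Y α t - c) := by
      intro t
      have e2 : ∀ i, (if i ≤ K then hh c μ i else if i = K + 1 then μ ^ K / ((K.factorial : ℕ) : ℂ) else 0) * dp Y α t ^ i =
          if i ≤ K then hh c μ i * dp Y α t ^ i else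
            if i = K + 1 then μ ^ K / ((K.factorial : ℕ) : ℂ) * dp Y α t ^ (K + 1) else 0 := by
        intro i
        split_ifs with h1 h2
        · rfl
        · rw [h2]
        · simp
      rw [Finset.sum_congr rfl fun i _ => e2 i, sum_cut (by omega), FE, poly2]
    have e3 : ∑ i ∈ Finset.range (2 * K + 2 + 1),
        ‖(if i ≤ K then hh c μ i else if i = K + 1 then μ ^ K / ((K.factorial : ℕ) : ℂ) else 0)‖ ^ 2 *
          (i.factorial : ℝ) * V ^ i =
        V * (EK K (‖μ‖ ^ 2 * V) + (‖μ‖ ^ 2 * V) ^ (K + 1) / (K.factorial : ℝ)) := by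
      have e2 : ∀ i, ‖(if i ≤ K then hh c μ i else if i = K + 1 then μ ^ K / ((K.factorial : ℕ) : ℂ) else 0)‖ ^ 2 *
          (i.factorial : ℝ) * V ^ i =
          if i ≤ K then ‖hh c μ i‖ ^ 2 * (i.factorial : ℝ) * V ^ i else
            if i = K + 1 then ‖μ ^ K / ((K.factorial : ℕ) : ℂ)‖ ^ 2 * ((K + 1).factorial : ℝ) * V ^ (K + 1) else 0 := by
        intro i
        split_ifs with h1 h2
        · rfl
        · rw [h2]
        · simp
      rw [Finset.sum_congr rfl fun i _ => e2 i, sum_cut (by omega), hc, norm_sum2]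
    simp only [e1, e3, norm_mul, mul_pow] at h1
    have h2 := (abs_le.1 h1).2
    simp only [← mul_pow] at h2
    have e4 : ∫ t in T..(2 * T), ‖FE K μ Y α t‖ ^ 2 * ‖dp Y α t - (V : ℂ) * conj μ‖ ^ 2 * ‖dp N b t‖ ^ 2 =
        ∫ t in T..(2 * T), (‖FE K μ Y α t‖ * ‖dp Y α t - c‖) ^ 2 * ‖dp N b t‖ ^ 2 := by
      rw [hc]
      simp only [mul_pow]
    rw [e4]
    simp only [mul_pow] at h2 ⊢
    linarith
  · -- (3)
    have hFE : Continuous (FE K μ Y α) := by
      unfold FE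
      fun_prop
    have hj : ∀ j ∈ Finset.range (K + 1), ∫ t in T..(2 * T), ‖dp Y α t ^ (2 * j)‖ ^ 2 * ‖dp N b t‖ ^ 2 ≤
        (((2 * j).factorial : ℝ) * 3 ^ (2 * j) + τ) * (T * N2 N b) := by
      intro j hj
      rw [Finset.mem_range] at hj
      have h1 := hG (fun i => if i = 2 * j then 1 else 0) (by
        intro i
        split_ifs
        · rw [norm_one]; exact hD1
        · rw [norm_zero]; linarith)
      have e1 : ∀ t : ℝ, ∑ i ∈ Finset.range (2 * K + 2 + 1), (if i = 2 * j then (1 : ℂ) else 0) * dp Y α t ^ i =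
          dp Y α t ^ (2 * j) := by
        intro t
        rw [Finset.sum_eq_single (2 * j)]
        · simp
        · intro i _ hi
          simp [hi]
        · intro h
          exact absurd (Finset.mem_range.2 (by omega)) h
      have e2 : ∑ i ∈ Finset.range (2 * K + 2 + 1), ‖(if i = 2 * j then (1 : ℂ) else 0)‖ ^ 2 * (i.factorial : ℝ) * V ^ i =
          ((2 * j).factorial : ℝ) * V ^ (2 * j) := by
        rw [Finset.sum_eq_single (2 * j)]
        · simp
        · intro i _ hi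
          simp [hi]
        · intro h
          exact absurd (Finset.mem_range.2 (by omega)) h
      simp only [e1, e2] at h1
      have h2 := (abs_le.1 h1).2
      have h3 : ((2 * j).factorial : ℝ) * V ^ (2 * j) ≤ ((2 * j).factorial : ℝ) * 3 ^ (2 * j) :=
        mul_le_mul_of_nonneg_left (pow_le_pow_left₀ hV0 hV _) (by positivity)
      have h4 := mul_le_mul_of_nonneg_right h3 hX0
      rw [add_mul]
      linarith
    have hpt : ∀ t : ℝ, ‖FE K μ Y α t‖ ^ 4 * ‖dp N b t‖ ^ 2 ≤ ((K : ℝ) + 1) ^ 3 * ∑ j ∈ Finset.range (K + 1),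
        ((1 + R) ^ K) ^ 4 * (‖dp Y α t ^ (2 * j)‖ ^ 2 * ‖dp N b t‖ ^ 2) := by
      intro t
      have h1 := pow4_sum (K := K) (fun j => (μ * dp Y α t) ^ j / ((j.factorial : ℕ) : ℂ))
      have h2 : ∀ j ∈ Finset.range (K + 1), ‖(μ * dp Y α t) ^ j / ((j.factorial : ℕ) : ℂ)‖ ^ 4 ≤
          ((1 + R) ^ K) ^ 4 * ‖dp Y α t ^ (2 * j)‖ ^ 2 := by
        intro j hj
        rw [Finset.mem_range] at hj
        have h3 := co_le hR hμ (show j ≤ K by omega)
        have e1 : (μ * dp Y α t) ^ j / ((j.factorial : ℕ) : ℂ) = μ ^ j / ((j.factorial : ℕ) : ℂ) * dp Y α t ^ j := by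
          rw [mul_pow]; ring
        rw [e1, norm_mul, mul_pow]
        have e2 : ‖dp Y α t ^ (2 * j)‖ ^ 2 = ‖dp Y α t ^ j‖ ^ 4 := by
          rw [norm_pow, norm_pow]; ring
        rw [e2]
        exact mul_le_mul_of_nonneg_right (pow_le_pow_left₀ (norm_nonneg _) h3 4) (by positivity)
      have h4 : ‖FE K μ Y α t‖ ^ 4 ≤ ((K : ℝ) + 1) ^ 3 * ∑ j ∈ Finset.range (K + 1),
          ((1 + R) ^ K) ^ 4 * ‖dp Y α t ^ (2 * j)‖ ^ 2 :=
        h1.trans (mul_le_mul_of_nonneg_left (Finset.sum_le_sum h2) (by positivity))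
      refine (mul_le_mul_of_nonneg_right h4 (by positivity)).trans (le_of_eq ?_)
      rw [mul_assoc, Finset.sum_mul]
      congr 1
      exact Finset.sum_congr rfl fun j _ => by ring
    have c1 : Continuous fun t : ℝ => ‖FE K μ Y α t‖ ^ 4 * ‖dp N b t‖ ^ 2 := by fun_prop
    have c2 : Continuous fun t : ℝ => ((K : ℝ) + 1) ^ 3 * ∑ j ∈ Finset.range (K + 1),
        ((1 + R) ^ K) ^ 4 * (‖dp Y α t ^ (2 * j)‖ ^ 2 * ‖dp N b t‖ ^ 2) := by fun_prop
    have hmono := intervalIntegral.integral_mono_on (μ := MeasureTheory.volume) (a := T) (b := 2 * T) (by linarith)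
      (c1.intervalIntegrable _ _) (c2.intervalIntegrable _ _) (fun t _ => hpt t)
    refine hmono.trans ?_
    rw [intervalIntegral.integral_const_mul, intervalIntegral.integral_finset_sum
      (fun j _ => Continuous.intervalIntegrable (by fun_prop) _ _), hC, mul_assoc]
    refine mul_le_mul_of_nonneg_left ?_ (by positivity)
    rw [Finset.sum_mul]
    refine Finset.sum_le_sum fun j hj' => ?_
    rw [intervalIntegral.integral_const_mul, mul_assoc]
    exact mul_le_mul_of_nonneg_left (hj j hj') (by positivity)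

end

end Pool.Agent.H4.MT
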