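import Pool.Agent.H4.MT.Stm

set_option autoImplicit false

/-! Project MT, part ZER (helper99): from thick sets to sums over zeros. -/

namespace Pool.Agent.H4.MT

open Filter Topology MeasureTheory Complex
open Pool.Agent.Q97.UM
open Pool.Agent.H4.IX (ord)
open Pool.Agent.H4.PX (w w_nonneg w_deriv)
open Pool.Agent.H4.SC (US US_meas w' w'_cont w_cont w_var sum_win)

noncomputable section

/-- one interval -/
theorem zer_one (M : ℕ) (b : ℕ → ℂ) (x r : ℝ) (hr : 0 ≤ r) :
    ∫ t in x..(x + r), w M b t ≤ r * w M b x + r * ∫ t in x..(x + r), |w' M b t| := by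
  have hwi : ∀ x y, IntervalIntegrable (fun t => w M b t) volume x y := fun x y => (w_cont M b).intervalIntegrable _ _
  have hw'i : ∀ x y, IntervalIntegrable (fun t => |w' M b t|) volume x y := fun x y => (w'_cont M b).abs.intervalIntegrable _ _
  have hw'i' : ∀ x y, IntervalIntegrable (fun t => w' M b t) volume x y := fun x y => (w'_cont M b).intervalIntegrable _ _
  obtain ⟨V, hV⟩ : ∃ V, V = ∫ t in x..(x + r), |w' M b t| := ⟨_, rfl⟩
  rw [← hV]
  have h3 : ∀ t ∈ Set.Icc x (x + r), w M b t ≤ w M b x + V := by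
    intro t ht
    have h5 : w M b t - w M b x = ∫ y in x..t, w' M b y :=
      (intervalIntegral.integral_eq_sub_of_hasDerivAt (fun y _ => w_deriv M b y) (hw'i' _ _)).symm
    have h6 : |w M b t - w M b x| ≤ V := by
      rw [h5, hV]
      refine (intervalIntegral.abs_integral_le_integral_abs ht.1).trans ?_
      exact intervalIntegral.integral_mono_interval le_rfl ht.1 ht.2 (Eventually.of_forall fun x => abs_nonneg _) (hw'i _ _)
    linarith [(abs_le.1 h6).2]
  have h4 := intervalIntegral.integral_mono_on (by linarith : x ≤ x + r) (hwi _ _) intervalIntegrable_const h3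
  rw [intervalIntegral.integral_const, smul_eq_mul] at h4
  have h5 : (x + r - x) * (w M b x + V) = r * w M b x + r * V := by ring
  rw [h5] at h4
  exact h4

open Classical in
theorem t_ZER : S_ZER := by
  intro δ c hδ hδ1 hc
  obtain ⟨θ, hθ⟩ : ∃ θ : ℝ, θ = min (1 / 40 : ℝ) (c / (8 * δ)) := ⟨_, rfl⟩
  have hθ0 : 0 < θ := by
    rw [hθ]
    exact lt_min (by norm_num) (by positivity)
  have hθ1 : θ ≤ 1 / 40 := by rw [hθ]; exact min_le_left _ _
  have hθ2 : 4 * θ * δ ≤ c / 2 := by
    have h : θ ≤ c / (8 * δ) := by rw [hθ]; exact min_le_right _ _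
    rw [le_div_iff₀ (by positivity)] at h
    linarith
  refine ⟨θ, hθ0, hθ1, ?_⟩
  filter_upwards [w_var hθ0 hθ1, eventually_ge_atTop (3 : ℝ)] with T hwv hT
  intro A E hE hA1 hA2 M hM b h
  replace hwv := hwv M hM b
  have hL0 : 0 < Real.log T := Real.log_pos (by linarith)
  obtain ⟨W, hW⟩ : ∃ W, W = T * N2 M b := ⟨_, rfl⟩
  have hW0 : 0 ≤ W := by rw [hW]; exact mul_nonneg (by linarith) (Pool.Agent.H4.PX.N2_nonneg _ _)
  rw [← hW] at hwv h ⊢
  obtain ⟨r, hr⟩ : ∃ r, r = δ / Real.log T := ⟨_, rfl⟩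
  rw [← hr] at hA1 hA2 h ⊢
  have hr0 : 0 < r := by rw [hr]; positivity
  have hrL : r * Real.log T = δ := by rw [hr]; field_simp
  obtain ⟨A', hA'⟩ : ∃ A', A' = A.filter (fun n => ∃ t ∈ E, ord n ≤ t ∧ t ≤ ord n + r) := ⟨_, rfl⟩
  rw [← hA']
  have hA's : ∀ n ∈ A', n ∈ A := by
    intro n hn
    rw [hA'] at hn
    exact (Finset.mem_filter.1 hn).1
  have hcover : ∀ t ∈ US A r ∩ E, ∃ n ∈ A', t ∈ Set.Icc (ord n) (ord n + r) := by
    rintro t ⟨⟨n, hn, h1, h2⟩, htE⟩
    refine ⟨n, ?_, h1, h2⟩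
    rw [hA', Finset.mem_filter]
    exact ⟨hn, t, htE, h1, h2⟩
  have hii : ∀ n : ℕ, Integrable ((Set.Icc (ord n) (ord n + r)).indicator (w M b)) := fun n =>
    (integrable_indicator_iff measurableSet_Icc).2
      ((w_cont M b).continuousOn.integrableOn_compact isCompact_Icc)
  have hi0 : ∀ (S : Set ℝ) (t : ℝ), 0 ≤ S.indicator (w M b) t := fun S t =>
    Set.indicator_nonneg (fun _ _ => w_nonneg _ _ _) _
  -- the integral over the set
  have s1 : ∫ t in US A r ∩ E, ‖dp M b t‖ ^ 2 ≤ ∑ n ∈ A', ∫ t in (ord n)..(ord n + r), w M b t := by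
    have e1 : ∫ t in US A r ∩ E, ‖dp M b t‖ ^ 2 = ∫ t, (US A r ∩ E).indicator (w M b) t := by
      rw [integral_indicator ((US_meas A r).inter hE)]
      rfl
    have e2 : ∑ n ∈ A', ∫ t in (ord n)..(ord n + r), w M b t =
        ∫ t, ∑ n ∈ A', (Set.Icc (ord n) (ord n + r)).indicator (w M b) t := by
      rw [integral_finsetSum _ fun n _ => hii n]
      refine Finset.sum_congr rfl fun n _ => ?_
      rw [integral_indicator measurableSet_Icc, integral_Icc_eq_integral_Ioc,
        intervalIntegral.integral_of_le (by linarith)]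
    rw [e1, e2]
    refine integral_mono_of_nonneg (Eventually.of_forall fun t => hi0 _ t)
      (integrable_finsetSum _ fun n _ => hii n) (Eventually.of_forall fun t => ?_)
    change (US A r ∩ E).indicator (w M b) t ≤
      ∑ n ∈ A', (Set.Icc (ord n) (ord n + r)).indicator (w M b) t
    by_cases ht : t ∈ US A r ∩ E
    · obtain ⟨n, hn, htn⟩ := hcover t ht
      rw [Set.indicator_of_mem ht]
      have h3 := Finset.single_le_sum
        (f := fun n => (Set.Icc (ord n) (ord n + r)).indicator (w M b) t) (fun n _ => hi0 _ t) hn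
      have h4 : (Set.Icc (ord n) (ord n + r)).indicator (w M b) t = w M b t :=
        Set.indicator_of_mem htn _
      exact h4 ▸ h3
    · rw [Set.indicator_of_notMem ht]
      exact Finset.sum_nonneg fun n _ => hi0 _ t
  -- one interval
  have s2 : ∑ n ∈ A', ∫ t in (ord n)..(ord n + r), w M b t ≤
      r * ∑ n ∈ A', w M b (ord n) + r * ∑ n ∈ A', ∫ t in (ord n)..(ord n + r), |w' M b t| := by
    rw [Finset.mul_sum, Finset.mul_sum, ← Finset.sum_add_distrib]
    exact Finset.sum_le_sum fun n _ => zer_one M b (ord n) r hr0.le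
  -- the variation
  have hdis : ∀ i ∈ A', ∀ j ∈ A', i ≠ j → 2 * (r / 2) ≤ |ord i - ord j| := by
    intro i hi j hj hij
    rcases lt_or_gt_of_ne hij with h3 | h3
    · have := hA2 i (hA's i hi) j (hA's j hj) h3
      rw [abs_sub_comm, abs_of_nonneg (by linarith)]
      linarith
    · have := hA2 j (hA's j hj) i (hA's i hi) h3
      rw [abs_of_nonneg (by linarith)]
      linarith
  have hin : ∀ i ∈ A', T ≤ ord i + r / 2 - r / 2 ∧ ord i + r / 2 + r / 2 ≤ 2 * T := by
    intro i hi
    obtain ⟨b1, b2⟩ := hA1 i (hA's i hi)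
    constructor <;> linarith
  have s3 : ∑ n ∈ A', ∫ t in (ord n)..(ord n + r), |w' M b t| ≤ ∫ t in T..(2 * T), |w' M b t| := by
    have h3 := sum_win (f := ord) (x := r / 2) (F := fun t => |w' M b t|) (fun t => abs_nonneg _)
      ((w'_cont M b).abs.intervalIntegrable T (2 * T)) (by linarith : (0 : ℝ) ≤ r / 2) (by linarith) hdis hin
    have e1 : ∀ x : ℝ, x + r / 2 - r / 2 = x := fun x => by ring
    have e2 : ∀ x : ℝ, x + r / 2 + r / 2 = x + r := fun x => by ring
    simp only [e1, e2] at h3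
    exact h3
  have s4 : c * W ≤ r * ∑ n ∈ A', w M b (ord n) + r * (4 * θ * (Real.log T * W)) := by
    have h3 := mul_le_mul_of_nonneg_left (s3.trans hwv) hr0.le
    linarith
  have e1 : r * (4 * θ * (Real.log T * W)) = 4 * θ * δ * W := by rw [← hrL]; ring
  rw [e1] at s4
  have s5 : 4 * θ * δ * W ≤ c / 2 * W := mul_le_mul_of_nonneg_right hθ2 hW0
  have s6 : c / 2 * W ≤ r * ∑ n ∈ A', w M b (ord n) := by linarith
  have e2 : c / (2 * δ) * (Real.log T * W) = c / 2 * W / r := by
    rw [hr]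
    field_simp
  rw [e2, div_le_iff₀ hr0]
  linarith

end

end Pool.Agent.H4.MT
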