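import Pool.Agent.H4.MT.Tail
import Pool.Agent.H4.MT.Com
import Pool.Agent.H4.MT.Tilt
import Pool.Agent.H4.MT.Prod
import Pool.Agent.H4.MT.Cls
import Pool.Agent.H4.MT.Zer
import Pool.Agent.H4.MT.GMb
import Pool.Agent.H4.MZ.Fin

set_option autoImplicit false

/-! The final assembly. -/

namespace Pool.Agent.H4.MT

theorem hGM : S_GM := t_GMb (Pool.Agent.H4.MZ.t_MOM Pool.Agent.H4.MZ.t_ALG)

/-- every thick set meets every disc in a thick set -/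
theorem hTAIL : S_TAIL :=
  t_TAIL (t_TILT hGM) (t_PROD Pool.Agent.H4.MZ.t_ALG)
    (t_CLS (Pool.Agent.H4.MZ.t_REAL Pool.Agent.H4.MZ.t_SQ Pool.Agent.H4.MZ.t_PSM (Pool.Agent.H4.MZ.t_EU Pool.Agent.H4.MZ.t_PSM))
      (Pool.Agent.H4.MZ.t_IMAG Pool.Agent.H4.MZ.t_SQ Pool.Agent.H4.MZ.t_PSM (Pool.Agent.H4.MZ.t_CNT Pool.Agent.H4.MZ.t_KER) Pool.Agent.H4.MZ.t_EXP)
      (Pool.Agent.H4.MZ.t_VAR Pool.Agent.H4.MZ.t_PSM))

theorem hZER : S_ZER := t_ZER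

end Pool.Agent.H4.MT
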