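import Pool.Agent.H4.MZ.Cf2
import Pool.Agent.H4.SC.Ind
import Pool.Agent.H4.PX.Ext

set_option autoImplicit false

/-!
Project MT (helper4). EVERY THICK SET MEETS EVERY DISC OF THE PLANE OF THE MESOSCOPIC PAIR IN A THICK SET; SIMPLE ZEROS THERE.

A set `S ⊆ [T, 2T]` is thick if `∫_S |D|² ≥ c₀ T N2` for ALL Dirichlet polynomials `D` of length `≤ T^{θ₀}`. The pair `(Rr al T t, Ri al T t)` (MZ/Cf2.lean: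
`log|ζ(1/2+i(t+a))/ζ(1/2+i(t-a))|` and `π N(t-a, t+a) - al`, over `√(log al)`, `a = al/log T`) is, relative to `|B|²`, close to `P = dp Y α`, a prime sum over `N < p ≤ Y = T^ε`,
`N ≥` length of `B`, with `V = N2 Y α ≈ 2`. Tilt: `F = ∑_{j ≤ K} (μ P)^j/j!`, so `F B` is a Dirichlet polynomial and `∫_S |F B|² ≥ c₀ ∫ |F B|²`; under `|F B|²` the sum `P` is within `O(1)` of
`V conj μ =: w` (second moment), so `S ∩ {|(Rr, Ri) - w| ≤ C/√c₀}` has at least half of `c₀ ∫ |F B|²`; Cauchy-Schwarz and `∫ |F|⁴ |B|² ≤ C T N2` finish.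

Statements `S_xxx`; write `theorem t_xxx : S_xxx` (or the implication given as job) in `Pool/Agent/H4/MT/<Name>.lean`, namespace `Pool.Agent.H4.MT` (import this file).
-/

namespace Pool.Agent.H4.MT

open Filter Topology MeasureTheory Complex
open scoped ComplexConjugate
open Pool.Agent.Q97.UM
open Pool.Agent.H4.MZ (PS Q4 pw S_ALG S_MOM S_REAL S_IMAG S_VAR Rr Ri)
open Pool.Agent.H4.IX (ord In gdi)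
open Pool.Agent.H4.PX (w dz)
open Pool.Agent.H4.SC (US)

noncomputable section

/-- the truncated exponential of the prime sum -/
def FE (K : ℕ) (μ : ℂ) (Y : ℕ) (α : ℕ → ℂ) (t : ℝ) : ℂ := ∑ j ∈ Finset.range (K + 1), (μ * dp Y α t) ^ j / ((j.factorial : ℕ) : ℂ)

/-- the truncated exponential series -/
def EK (K : ℕ) (x : ℝ) : ℝ := ∑ j ∈ Finset.range (K + 1), x ^ j / (j.factorial : ℝ)

/-- GM: general mean squares. Job `S_MOM → S_GM` (file GM.lean, `theorem t_GM : S_MOM → S_GM`). PROOF. S_MOM with `m`: expand `‖∑ g_i P^i‖² = ∑_{i,l} g_i conj (g_l) P^i conj (P)^l`; the error is at most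
`(m+1)² D² C (κ + T^{-1/2}) 4^m T N2 ≤ τ T N2` for `κ` small and `T` large. (The integrand is real: take real parts at the end.) -/
def S_GM : Prop := ∀ (m : ℕ) (D τ : ℝ), 0 ≤ D → 0 < τ → ∃ κ : ℝ, 0 < κ ∧ ∀ᶠ T : ℝ in atTop, ∀ (N Y : ℕ) (α b : ℕ → ℂ), 1 ≤ Y →
  (Y : ℝ) ^ m * N ≤ T ^ (1 / 8 : ℝ) → PS N Y α → N2 Y α ≤ 3 → Q4 Y α ≤ κ → ∀ g : ℕ → ℂ, (∀ i, ‖g i‖ ≤ D) →
    |(∫ t in T..(2 * T), ‖∑ i ∈ Finset.range (m + 1), g i * dp Y α t ^ i‖ ^ 2 * ‖dp N b t‖ ^ 2) -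
      (∑ i ∈ Finset.range (m + 1), ‖g i‖ ^ 2 * (i.factorial : ℝ) * N2 Y α ^ i) * (T * N2 N b)| ≤ τ * (T * N2 N b)

/-- TILT: moments under the tilted weight. Job `S_GM → S_TILT` (file Tilt.lean). PROOF. `m = 2K + 2`, `V = N2 Y α ∈ [0, 3]`, `x = |μ|² V`. (1): S_GM with `g_i = μ^i/i!` for `i ≤ K`, `0` otherwise:
`∑ |g_i|² i! V^i = ∑_{i ≤ K} x^i/i!`. (2): `F (P - V conj μ)` is the polynomial with `g_i = μ^{i-1}/(i-1)! - V conj μ μ^i/i!` (`i ≤ K`, the first term absent for `i = 0`), `g_{K+1} = μ^K/K!`; here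
`|g_i|² i! V^i = V x^{i-1} (i - x)²/i!` for `1 ≤ i ≤ K`, `V x` for `i = 0`, `V (K+1) x^K/K!` for `i = K+1`, and the sum is exactly `V (∑_{i ≤ K} x^i/i! + x^{K+1}/K!)` (induction on `K`:
the claim `x + ∑_{i=1}^K x^{i-1}(i-x)²/i! = ∑_{i ≤ K} x^i/i! + x^{K+1}/K! - (K+1) x^K/K!`). All coefficients are bounded in terms of `K, R`. (3): `‖F‖⁴ ≤ (K+1)³ ∑_j ‖(μP)^j/j!‖⁴` and
`∫ ‖P^{2j}‖² |B|² ≤ ((2j)! 3^{2j} + τ) T N2` by S_GM with `g = 1` at `2j ≤ m`. (One `κ`: the minimum of the ones used; the lengths: `Y^m N` for all.) -/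
def S_TILT : Prop := ∀ (K : ℕ) (R τ : ℝ), 0 ≤ R → 0 < τ → ∃ (m : ℕ) (κ C : ℝ), 1 ≤ m ∧ K ≤ m ∧ 0 < κ ∧ 0 < C ∧ ∀ᶠ T : ℝ in atTop, ∀ (N Y : ℕ) (α b : ℕ → ℂ), 1 ≤ Y →
  (Y : ℝ) ^ m * N ≤ T ^ (1 / 8 : ℝ) → PS N Y α → N2 Y α ≤ 3 → Q4 Y α ≤ κ → ∀ μ : ℂ, ‖μ‖ ≤ R →
    |(∫ t in T..(2 * T), ‖FE K μ Y α t‖ ^ 2 * ‖dp N b t‖ ^ 2) - EK K (‖μ‖ ^ 2 * N2 Y α) * (T * N2 N b)| ≤ τ * (T * N2 N b) ∧
    ∫ t in T..(2 * T), ‖FE K μ Y α t‖ ^ 2 * ‖dp Y α t - ((N2 Y α : ℝ) : ℂ) * conj μ‖ ^ 2 * ‖dp N b t‖ ^ 2 ≤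
      (N2 Y α * (EK K (‖μ‖ ^ 2 * N2 Y α) + (‖μ‖ ^ 2 * N2 Y α) ^ (K + 1) / (K.factorial : ℝ)) + τ) * (T * N2 N b) ∧
    ∫ t in T..(2 * T), ‖FE K μ Y α t‖ ^ 4 * ‖dp N b t‖ ^ 2 ≤ C * (T * N2 N b)

/-- PROD: the product is a Dirichlet polynomial. Job `S_ALG → S_PROD` (file Prod.lean; `Pool.Agent.H4.MZ.t_ALG` is a theorem, MZ/Alg.lean). PROOF. `b'` = `b` restricted to `[1, N]` (`dp N b' = dp N b`); by S_ALG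
`(dp Y α t)^j dp N b' t = dp (Y^j N) (cv (pw α j) b') t = dp (Y^K N) (cv (pw α j) b') t` for `j ≤ K` (the coefficients vanish beyond `Y^j N`); `e = ∑_j (μ^j/j!) cv (pw α j) b'`. -/
def S_PROD : Prop := ∀ (K N Y : ℕ) (α b : ℕ → ℂ) (μ : ℂ), 1 ≤ Y → PS N Y α → ∃ e : ℕ → ℂ, ∀ t : ℝ, FE K μ Y α t * dp N b t = dp (Y ^ K * N) e t

/-- CLS: the pair is close to the prime sum. Job `S_REAL → S_IMAG → S_VAR → S_CLS` (file Cls.lean). PROOF. The first 330 lines of MZ/Cf.lean (proof of `cf`) contain exactly this, with `α = asc r (2a) a N Y`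
(`hPS`, `hVd`, `hQ`, `hUI`, `hVI`): copy them. `A₀` such that `(CV + 3)/log A₀ ≤ η`, `CR/log A₀, CI/log A₀ ≤ η/8`; the bad set inside `[c, d]`, `c = T + 3L + 1`, `d = 2T - 3L`, by Chebyshev (`1 < |x|` gives `1 ≤ x²`), the two
edges by `‖dp N b t‖² ≤ N · N2` (`hedge`). Choose `θ ≤ 1/160`. -/
def S_CLS : Prop := ∃ ε₀ : ℝ, 0 < ε₀ ∧ ε₀ ≤ 1 ∧ ∀ ε : ℝ, 0 < ε → ε ≤ ε₀ → ∀ η κ : ℝ, 0 < η → 0 < κ → ∃ A₀ : ℝ, 4 ≤ A₀ ∧ ∀ al : ℝ, A₀ ≤ al → ∃ θ : ℝ, 0 < θ ∧ θ ≤ 1 / 160 ∧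
  ∀ᶠ T : ℝ in atTop, ∀ N : ℕ, 1 ≤ N → (N : ℝ) ≤ T ^ θ → ∃ α : ℕ → ℂ, PS N ⌊T ^ ε⌋₊ α ∧ |N2 ⌊T ^ ε⌋₊ α - 2| ≤ η ∧ Q4 ⌊T ^ ε⌋₊ α ≤ κ ∧ ∀ b : ℕ → ℂ,
    ∫ t in Set.Icc T (2 * T) ∩ {t | 1 < |Rr al T t - (dp ⌊T ^ ε⌋₊ α t).re| ∨ 1 < |Ri al T t - (dp ⌊T ^ ε⌋₊ α t).im|}, ‖dp N b t‖ ^ 2 ≤ η * (T * N2 N b)

/-- TAIL: the main theorem (helper4, `S_TILT → S_PROD → S_CLS → S_TAIL`). -/
def S_TAIL : Prop := ∀ c₀ θ₀ R : ℝ, 0 < c₀ → 0 < θ₀ → 0 ≤ R → ∃ c₁ A₀ : ℝ, 0 < c₁ ∧ 4 ≤ A₀ ∧ ∀ al : ℝ, A₀ ≤ al → ∃ θ : ℝ, 0 < θ ∧ θ ≤ 1 / 40 ∧ ∀ᶠ T : ℝ in atTop,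
  ∀ S : Set ℝ, MeasurableSet S → S ⊆ Set.Icc T (2 * T) → (∀ M : ℕ, (M : ℝ) ≤ T ^ θ₀ → ∀ b : ℕ → ℂ, c₀ * (T * N2 M b) ≤ ∫ t in S, ‖dp M b t‖ ^ 2) →
    ∀ z : ℂ, ‖z‖ ≤ R → ∀ N : ℕ, (N : ℝ) ≤ T ^ θ → ∀ b : ℕ → ℂ,
      c₁ * (T * N2 N b) ≤ ∫ t in S ∩ {t | |Rr al T t - z.re| ≤ 1 + 8 / Real.sqrt c₀ ∧ |Ri al T t - z.im| ≤ 1 + 8 / Real.sqrt c₀}, ‖dp N b t‖ ^ 2

open Classical in
/-- ZER: from sets to zeros (file Zer.lean). PROOF. `r = δ/log T`, `A'` the filtered set: `US A r ∩ E ⊆ ⋃_{n ∈ A'} [ord n, ord n + r]`; `∫_{ord n}^{ord n + r} w ≤ r w (ord n) + r ∫_{ord n}^{ord n + r} |w'|` (`w'`, `w_deriv`, `w'_cont`,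
`w_var` in SC/Thk.lean and PX/Var.lean; compare the end of the proof of `thickI` in SC/Ind.lean), the intervals overlap at most in endpoints and lie in `[T, 2T]`, so `∑ ∫ |w'| ≤ ∫_T^{2T} |w'| ≤ 4θ log T (T N2)` and
`c T N2 ≤ r ∑_{A'} w (ord n) + 4θδ T N2`; `θ = min (1/40) (c/(8δ))`. -/
def S_ZER : Prop := ∀ δ c : ℝ, 0 < δ → δ ≤ 1 → 0 < c → ∃ θ : ℝ, 0 < θ ∧ θ ≤ 1 / 40 ∧ ∀ᶠ T : ℝ in atTop, ∀ (A : Finset ℕ) (E : Set ℝ), MeasurableSet E →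
  (∀ n ∈ A, T ≤ ord n ∧ ord n + δ / Real.log T ≤ 2 * T) → (∀ n ∈ A, ∀ m ∈ A, n < m → ord n + δ / Real.log T ≤ ord m) →
  ∀ M : ℕ, (M : ℝ) ≤ T ^ θ → ∀ b : ℕ → ℂ, c * (T * N2 M b) ≤ ∫ t in US A (δ / Real.log T) ∩ E, ‖dp M b t‖ ^ 2 →
    c / (2 * δ) * (Real.log T * (T * N2 M b)) ≤ ∑ n ∈ A.filter (fun n => ∃ t ∈ E, ord n ≤ t ∧ t ≤ ord n + δ / Real.log T), w M b (ord n)

/-- LBG: moments of the derivative over a family of isolated simple zeros (file Lbg.lean). PROOF. Adaptation of `lbd_runs` (PX/Lbd.lean, all its lemmas are importable): the same `F`, `g`, `K = 2 K₁/c + 1`, `P t ↔ g t ≤ K`; the zeros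
in `ZI d T` without `P` have `∑ w M e ≤ (c/2) log T T N2` (`hbad`), so those of `G` with `P` have at least `(c/2) log T (T n2)`; on them `dz^{2 lam} ≥ e^{-K} (log T)^{2 lam} w M e` as in `lbd_runs`. (`n ∈ gdi d T` means `n = N 0 s.im` with `s ∈ ZI d T`,
and `ord n = s.im`, `ord_N`; `s ↦ N 0 s.im` is injective on `ZI d T`, see PX/Tr.lean or IX/Ord.lean.) -/
def S_LBG : Prop := ∀ c d θ A : ℝ, 0 < c → 0 < d → d ≤ 1 → 0 < θ → 1 ≤ A → ∃ c₂ : ℝ, 0 < c₂ ∧ ∀ᶠ T : ℝ in atTop, ∀ G : Finset ℕ, (∀ n ∈ G, n ∈ gdi d T) →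
  (∀ M : ℕ, (M : ℝ) ≤ T ^ θ → ∀ b : ℕ → ℂ, c * (Real.log T * (T * N2 M b)) ≤ ∑ n ∈ G, w M b (ord n)) →
  ∀ lam : ℝ, |lam| ≤ A → c₂ * T * Real.log T ^ ((lam + 1) ^ 2) ≤ ∑ n ∈ G, dz (ord n) ^ (2 * lam)

end

end Pool.Agent.H4.MT
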