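import Pool.Agent.H4.MT.Stm

set_option autoImplicit false

/-! Every thick set meets every disc of the plane of the mesoscopic pair in a thick set. -/

namespace Pool.Agent.H4.MT

open Filter Topology MeasureTheory Complex
open scoped ComplexConjugate
open Pool.Agent.Q97.UM
open Pool.Agent.H4.MZ (PS Q4 Rr Ri Rr_meas Ri_meas)
open Pool.Agent.H4.LG (N2_nn dp_c)

noncomputable section

lemma EK_one (K : ℕ) {x : ℝ} (hx : 0 ≤ x) : 1 ≤ EK K x := by
  unfold EK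
  rw [Finset.sum_range_succ']
  have h : 0 ≤ ∑ j ∈ Finset.range K, x ^ (j + 1) / ((j + 1).factorial : ℝ) := Finset.sum_nonneg fun j _ => by positivity
  simp only [pow_zero, Nat.factorial_zero, Nat.cast_one, div_one]
  linarith

lemma FE_cont (K : ℕ) (μ : ℂ) (Y : ℕ) (α : ℕ → ℂ) : Continuous (FE K μ Y α) := by
  unfold FE
  exact continuous_finsetSum _ fun j _ => ((continuous_const.mul (dp_c Y α)).pow j).div_const _

lemma amgm {l : ℝ} (hl : 0 < l) (x : ℝ) : x ≤ l / 2 * x ^ 2 + 1 / (2 * l) := by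
  have h1 : l / 2 * x ^ 2 + 1 / (2 * l) - x = (l * x - 1) ^ 2 / (2 * l) := by
    field_simp
    ring
  have h2 : 0 ≤ (l * x - 1) ^ 2 / (2 * l) := by positivity
  linarith

lemma icc_int {T : ℝ} (hT : 0 ≤ T) (f : ℝ → ℝ) : ∫ t in T..(2 * T), f t = ∫ t in Set.Icc T (2 * T), f t := by
  rw [intervalIntegral.integral_of_le (by linarith), integral_Icc_eq_integral_Ioc]

/-- the integrated pointwise inequality -/
lemma core {T l l' ρ : ℝ} (hl : 0 < l) (hl' : 0 < l') (hρ : 0 < ρ) {f2 W q : ℝ → ℝ} (hf2 : Continuous f2) (hW : Continuous W)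
    (hq : Continuous q) (hf0 : ∀ t, 0 ≤ f2 t) (hW0 : ∀ t, 0 ≤ W t) (hq0 : ∀ t, 0 ≤ q t) {S G B : Set ℝ} (hS : MeasurableSet S) (hG : MeasurableSet G) (hB : MeasurableSet B)
    (hST : S ⊆ Set.Icc T (2 * T)) (hcov : ∀ t, t ∉ G → t ∉ B → ρ ^ 2 ≤ q t) :
    ∫ t in S, f2 t * W t ≤ (l + l') / 2 * (∫ t in Set.Icc T (2 * T), f2 t ^ 2 * W t) + 1 / (2 * l') * (∫ t in S ∩ G, W t) +
      1 / ρ ^ 2 * (∫ t in Set.Icc T (2 * T), f2 t * q t * W t) + 1 / (2 * l) * ∫ t in Set.Icc T (2 * T) ∩ B, W t := by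
  have hI : ∀ {f : ℝ → ℝ}, Continuous f → IntegrableOn f (Set.Icc T (2 * T)) := fun h => h.integrableOn_Icc
  have hSG : S ∩ G ⊆ Set.Icc T (2 * T) := fun t ht => hST ht.1
  have e1 : ∫ t in S, f2 t * W t = ∫ t in Set.Icc T (2 * T), S.indicator (fun t => f2 t * W t) t := by
    rw [setIntegral_indicator hS, Set.inter_eq_self_of_subset_right hST]
  have e2 : ∫ t in S ∩ G, W t = ∫ t in Set.Icc T (2 * T), (S ∩ G).indicator W t := by
    rw [setIntegral_indicator (hS.inter hG), Set.inter_eq_self_of_subset_right hSG]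
  have e3 : ∫ t in Set.Icc T (2 * T) ∩ B, W t = ∫ t in Set.Icc T (2 * T), B.indicator W t := by
    rw [setIntegral_indicator hB]
  have i1 : IntegrableOn (fun t => f2 t ^ 2 * W t) (Set.Icc T (2 * T)) := hI ((hf2.pow 2).mul hW)
  have i2 : IntegrableOn (fun t => f2 t * q t * W t) (Set.Icc T (2 * T)) := hI ((hf2.mul hq).mul hW)
  have i3 : IntegrableOn ((S ∩ G).indicator W) (Set.Icc T (2 * T)) := (hI hW).indicator (hS.inter hG)
  have i4 : IntegrableOn (B.indicator W) (Set.Icc T (2 * T)) := (hI hW).indicator hB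
  have i5 : IntegrableOn (S.indicator fun t => f2 t * W t) (Set.Icc T (2 * T)) := (hI (hf2.mul hW)).indicator hS
  have e4 : (l + l') / 2 * (∫ t in Set.Icc T (2 * T), f2 t ^ 2 * W t) + 1 / (2 * l') * (∫ t in S ∩ G, W t) +
      1 / ρ ^ 2 * (∫ t in Set.Icc T (2 * T), f2 t * q t * W t) + 1 / (2 * l) * ∫ t in Set.Icc T (2 * T) ∩ B, W t =
      ∫ t in Set.Icc T (2 * T), ((l + l') / 2 * (f2 t ^ 2 * W t) + 1 / (2 * l') * (S ∩ G).indicator W t +
        1 / ρ ^ 2 * (f2 t * q t * W t) + 1 / (2 * l) * B.indicator W t) := by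
    have j1 : IntegrableOn (fun t => (l + l') / 2 * (f2 t ^ 2 * W t)) (Set.Icc T (2 * T)) := i1.const_mul _
    have j3 : IntegrableOn (fun t => 1 / (2 * l') * (S ∩ G).indicator W t) (Set.Icc T (2 * T)) := i3.const_mul _
    have j2 : IntegrableOn (fun t => 1 / ρ ^ 2 * (f2 t * q t * W t)) (Set.Icc T (2 * T)) := i2.const_mul _
    have j4 : IntegrableOn (fun t => 1 / (2 * l) * B.indicator W t) (Set.Icc T (2 * T)) := i4.const_mul _
    have j13 : IntegrableOn (fun t => (l + l') / 2 * (f2 t ^ 2 * W t) + 1 / (2 * l') * (S ∩ G).indicator W t) (Set.Icc T (2 * T)) := j1.add j3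
    have j132 : IntegrableOn (fun t => (l + l') / 2 * (f2 t ^ 2 * W t) + 1 / (2 * l') * (S ∩ G).indicator W t + 1 / ρ ^ 2 * (f2 t * q t * W t))
      (Set.Icc T (2 * T)) := j13.add j2
    rw [integral_add j132 j4, integral_add j13 j2, integral_add j1 j3,
      integral_const_mul, integral_const_mul, integral_const_mul, integral_const_mul, e2, e3]
  rw [e1, e4]
  refine setIntegral_mono_on i5 ((((i1.const_mul _).add (i3.const_mul _)).add (i2.const_mul _)).add (i4.const_mul _)) measurableSet_Icc fun t _ => ?_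
  have a0 := hf0 t
  have a1 := hW0 t
  have a2 := hq0 t
  have p1 : 0 ≤ l / 2 * (f2 t ^ 2 * W t) := by positivity
  have p2 : 0 ≤ l' / 2 * (f2 t ^ 2 * W t) := by positivity
  have p3 : 0 ≤ 1 / (2 * l') * (S ∩ G).indicator W t := mul_nonneg (by positivity) (Set.indicator_nonneg (fun t _ => hW0 t) t)
  have p4 : 0 ≤ 1 / ρ ^ 2 * (f2 t * q t * W t) := by positivity
  have p5 : 0 ≤ 1 / (2 * l) * B.indicator W t := mul_nonneg (by positivity) (Set.indicator_nonneg (fun t _ => hW0 t) t)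
  have e5 : (l + l') / 2 * (f2 t ^ 2 * W t) = l / 2 * (f2 t ^ 2 * W t) + l' / 2 * (f2 t ^ 2 * W t) := by ring
  rw [e5]
  by_cases hs : t ∈ S
  · rw [Set.indicator_of_mem hs]
    by_cases hg : t ∈ G
    · rw [Set.indicator_of_mem (show t ∈ S ∩ G from ⟨hs, hg⟩)] at p3 ⊢
      have h1 := mul_le_mul_of_nonneg_right (amgm hl' (f2 t)) a1
      have h2 : (l' / 2 * f2 t ^ 2 + 1 / (2 * l')) * W t = l' / 2 * (f2 t ^ 2 * W t) + 1 / (2 * l') * W t := by ring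
      rw [h2] at h1
      linarith
    · by_cases hb : t ∈ B
      · rw [Set.indicator_of_mem hb] at p5 ⊢
        have h1 := mul_le_mul_of_nonneg_right (amgm hl (f2 t)) a1
        have h2 : (l / 2 * f2 t ^ 2 + 1 / (2 * l)) * W t = l / 2 * (f2 t ^ 2 * W t) + 1 / (2 * l) * W t := by ring
        rw [h2] at h1
        linarith
      · have h1 := hcov t hg hb
        have h2 : f2 t * W t ≤ 1 / ρ ^ 2 * (f2 t * q t * W t) := by
          have h3 : 1 / ρ ^ 2 * (f2 t * q t * W t) - f2 t * W t = (f2 t * W t) * (q t - ρ ^ 2) / ρ ^ 2 := by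
            field_simp
          have h4 : 0 ≤ (f2 t * W t) * (q t - ρ ^ 2) / ρ ^ 2 :=
            div_nonneg (mul_nonneg (mul_nonneg a0 a1) (by linarith)) (by positivity)
          linarith
        linarith
  · rw [Set.indicator_of_notMem hs]
    linarith

/-- **every thick set meets every disc in a thick set** -/
theorem t_TAIL (hTi : S_TILT) (hPr : S_PROD) (hCl : S_CLS) : S_TAIL := by
  intro c₀ θ₀ R hc₀ hθ₀ hR
  -- the length of the exponential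
  obtain ⟨K, hK⟩ : ∃ K : ℕ, (R ^ 2) ^ K / (K.factorial : ℝ) ≤ 1 / (R ^ 2 + 1) := by
    have h1 := FloorSemiring.tendsto_pow_div_factorial_atTop (R ^ 2)
    obtain ⟨K, hK⟩ := (h1.eventually_le_const (show (0 : ℝ) < 1 / (R ^ 2 + 1) by positivity)).exists
    exact ⟨K, hK⟩
  obtain ⟨m, κ, C, hm1, hKm, hκ, hC, hTi⟩ := hTi K R (1 / 8) hR (by norm_num)
  obtain ⟨ε₀, hε₀, hε₀1, hCl⟩ := hCl
  have hm0 : (0 : ℝ) < m + 1 := by positivity
  obtain ⟨ε, hε⟩ : ∃ ε, ε = min ε₀ (min (1 / (80 * (m + 1))) (θ₀ / (2 * (m + 1)))) := ⟨_, rfl⟩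
  have hε0 : 0 < ε := by rw [hε]; positivity
  have hεε : ε ≤ ε₀ := by rw [hε]; exact min_le_left _ _
  have hε1 : ε * m ≤ 1 / 80 := by
    have h1 : ε ≤ 1 / (80 * (m + 1)) := by rw [hε]; exact (min_le_right _ _).trans (min_le_left _ _)
    calc ε * m ≤ ε * (m + 1) := mul_le_mul_of_nonneg_left (by linarith) hε0.le
      _ ≤ 1 / (80 * (m + 1)) * (m + 1) := mul_le_mul_of_nonneg_right h1 hm0.le
      _ = 1 / 80 := by field_simp
  have hε2 : ε * m ≤ θ₀ / 2 := by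
    have h1 : ε ≤ θ₀ / (2 * (m + 1)) := by rw [hε]; exact (min_le_right _ _).trans (min_le_right _ _)
    calc ε * m ≤ ε * (m + 1) := mul_le_mul_of_nonneg_left (by linarith) hε0.le
      _ ≤ θ₀ / (2 * (m + 1)) * (m + 1) := mul_le_mul_of_nonneg_right h1 hm0.le
      _ = θ₀ / 2 := by field_simp
  obtain ⟨η, hη⟩ : ∃ η, η = min 1 (c₀ ^ 2 / (64 * C)) := ⟨_, rfl⟩
  have hη0 : 0 < η := by rw [hη]; positivity
  have hη1 : η ≤ 1 := by rw [hη]; exact min_le_left _ _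
  have hη2 : η ≤ c₀ ^ 2 / (64 * C) := by rw [hη]; exact min_le_right _ _
  obtain ⟨A₀, hA₀, hCl⟩ := hCl ε hε0 hεε η κ hη0 hκ
  refine ⟨c₀ ^ 2 / (4 * C), A₀, by positivity, hA₀, fun al hal => ?_⟩
  obtain ⟨θ₁, hθ₁, hθ₁', hCl⟩ := hCl al hal
  obtain ⟨θ, hθ⟩ : ∃ θ, θ = min θ₁ (θ₀ / 2) := ⟨_, rfl⟩
  have hθ0 : 0 < θ := by rw [hθ]; positivity
  have hθa : θ ≤ θ₁ := by rw [hθ]; exact min_le_left _ _
  have hθb : θ ≤ θ₀ / 2 := by rw [hθ]; exact min_le_right _ _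
  refine ⟨θ, hθ0, by linarith, ?_⟩
  filter_upwards [hTi, hCl, mv_rel (1 / 8) (by norm_num), eventually_ge_atTop (16 : ℝ)] with T hTi hCl hmv hT16 S hS hST hthick z hz N hN b
  have hT0 : 0 < T := by linarith
  have hT1 : (1 : ℝ) ≤ T := by linarith
  rcases Nat.eq_zero_or_pos N with hN0 | hN0
  · subst hN0
    have h2 : N2 0 b = 0 := by unfold N2; simp
    rw [h2, mul_zero, mul_zero]
    exact integral_nonneg fun t => sq_nonneg _
  have hNθ₁ : (N : ℝ) ≤ T ^ θ₁ := hN.trans (Real.rpow_le_rpow_of_exponent_le hT1 hθa)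
  obtain ⟨α, hPS, hVd, hQ, hbad⟩ := hCl N hN0 hNθ₁
  replace hbad := hbad b
  obtain ⟨Y, hY⟩ : ∃ Y, Y = ⌊T ^ ε⌋₊ := ⟨_, rfl⟩
  rw [← hY] at hPS hVd hQ hbad
  have hTε1 : 1 ≤ T ^ ε := Real.one_le_rpow hT1 hε0.le
  have hY1 : 1 ≤ Y := by
    rw [hY]
    exact Nat.le_floor (by exact_mod_cast hTε1)
  have hY1R : (1 : ℝ) ≤ Y := by exact_mod_cast hY1
  have hYle : (Y : ℝ) ≤ T ^ ε := by rw [hY]; exact Nat.floor_le (by linarith)
  have hYm : (Y : ℝ) ^ m ≤ T ^ (ε * m) := by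
    calc (Y : ℝ) ^ m ≤ (T ^ ε) ^ m := pow_le_pow_left₀ (Nat.cast_nonneg _) hYle m
      _ = T ^ (ε * m) := by rw [← Real.rpow_natCast, ← Real.rpow_mul hT0.le]
  have hlen : ∀ {s u v : ℝ}, ε * m ≤ u → θ ≤ v → u + v ≤ s → (Y : ℝ) ^ m * N ≤ T ^ s := by
    intro s u v h1 h2 h3
    calc (Y : ℝ) ^ m * N ≤ T ^ u * T ^ v := mul_le_mul (hYm.trans (Real.rpow_le_rpow_of_exponent_le hT1 h1))
          (hN.trans (Real.rpow_le_rpow_of_exponent_le hT1 h2)) (Nat.cast_nonneg _) (by positivity)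
      _ = T ^ (u + v) := by rw [← Real.rpow_add hT0]
      _ ≤ T ^ s := Real.rpow_le_rpow_of_exponent_le hT1 h3
  have hKlen : ((Y ^ K * N : ℕ) : ℝ) ≤ (Y : ℝ) ^ m * N := by
    push_cast
    exact mul_le_mul_of_nonneg_right (pow_le_pow_right₀ hY1R hKm) (Nat.cast_nonneg _)
  -- the parameters
  obtain ⟨V, hV⟩ : ∃ V, V = N2 Y α := ⟨_, rfl⟩
  rw [← hV] at hVd
  have hVd' := abs_le.1 hVd
  have hV1 : 1 ≤ V := by linarith [hVd'.1]
  have hV3 : V ≤ 3 := by linarith [hVd'.2]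
  have hV0 : 0 < V := by linarith
  obtain ⟨μ, hμ⟩ : ∃ μ : ℂ, μ = conj z / (V : ℂ) := ⟨_, rfl⟩
  have hVc : (V : ℂ) ≠ 0 := by exact_mod_cast hV0.ne'
  have hVμ : (V : ℂ) * conj μ = z := by
    rw [hμ, map_div₀, Complex.conj_conj, Complex.conj_ofReal]
    field_simp
  have hμn : ‖μ‖ = ‖z‖ / V := by
    rw [hμ, norm_div, RCLike.norm_conj, Complex.norm_real, Real.norm_eq_abs, abs_of_pos hV0]
  have hμR : ‖μ‖ ≤ R := by
    rw [hμn, div_le_iff₀ hV0]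
    have : R * 1 ≤ R * V := mul_le_mul_of_nonneg_left hV1 hR
    linarith
  obtain ⟨x, hx⟩ : ∃ x, x = ‖μ‖ ^ 2 * V := ⟨_, rfl⟩
  have hx0 : 0 ≤ x := by rw [hx]; positivity
  have hxR : x ≤ R ^ 2 := by
    have h1 : x = ‖z‖ ^ 2 / V := by rw [hx, hμn]; field_simp
    rw [h1, div_le_iff₀ hV0]
    have h2 : ‖z‖ ^ 2 ≤ R ^ 2 := pow_le_pow_left₀ (norm_nonneg _) hz 2
    have h3 : R ^ 2 * 1 ≤ R ^ 2 * V := mul_le_mul_of_nonneg_left hV1 (sq_nonneg R)
    linarith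
  have hxK : x ^ (K + 1) / (K.factorial : ℝ) ≤ 1 := by
    have h1 : x ^ (K + 1) / (K.factorial : ℝ) ≤ (R ^ 2) * ((R ^ 2) ^ K / (K.factorial : ℝ)) := by
      rw [← mul_div_assoc, ← pow_succ']
      exact div_le_div_of_nonneg_right (pow_le_pow_left₀ hx0 hxR _) (by positivity)
    have h2 := mul_le_mul_of_nonneg_left hK (sq_nonneg R)
    have h3 : R ^ 2 * (1 / (R ^ 2 + 1)) ≤ 1 := by
      rw [mul_one_div, div_le_one (by positivity)]
      linarith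
    linarith
  obtain ⟨E, hE⟩ : ∃ E, E = EK K x := ⟨_, rfl⟩
  have hE1 : 1 ≤ E := by rw [hE]; exact EK_one K hx0
  have hT := hTi N Y α b hY1 (hlen hε1 (show θ ≤ 1 / 160 by linarith) (by norm_num)) hPS (by rw [← hV]; exact hV3) hQ μ hμR
  rw [← hV, hVμ, ← hx, ← hE] at hT
  obtain ⟨hT1', hT2, hT3⟩ := hT
  obtain ⟨X, hX⟩ : ∃ X, X = T * N2 N b := ⟨_, rfl⟩
  have hX0 : 0 ≤ X := by rw [hX]; exact mul_nonneg hT0.le (N2_nn N b)
  rw [← hX] at hT1' hT2 hT3 hbad ⊢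
  -- the product
  obtain ⟨e, he⟩ := hPr K N Y α b μ hY1 hPS
  have hee : ∀ t, ‖dp (Y ^ K * N) e t‖ ^ 2 = ‖FE K μ Y α t‖ ^ 2 * ‖dp N b t‖ ^ 2 := fun t => by
    rw [← he t, norm_mul, mul_pow]
  have hmv1 := hmv (Y ^ K * N) (hKlen.trans (hlen hε1 (show θ ≤ 1 / 160 by linarith) (by norm_num))) e
  have hth1 := hthick (Y ^ K * N) (hKlen.trans (hlen hε2 hθb (by linarith))) e
  simp only [hee] at hmv1 hth1
  obtain ⟨X₁, hX₁⟩ : ∃ X₁, X₁ = T * N2 (Y ^ K * N) e := ⟨_, rfl⟩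
  rw [← hX₁] at hmv1 hth1
  have hFc := FE_cont K μ Y α
  have hBc := dp_c N b
  rw [icc_int hT0.le] at hT1' hT2 hT3 hmv1
  have a1 := (abs_le.1 hT1').1
  have a2 := (abs_le.1 hmv1).2
  -- the radius
  obtain ⟨s, hs⟩ : ∃ s, s = Real.sqrt c₀ := ⟨_, rfl⟩
  have hs0 : 0 < s := by rw [hs]; exact Real.sqrt_pos.2 hc₀
  have hs2 : s ^ 2 = c₀ := by rw [hs]; exact Real.sq_sqrt hc₀.le
  rw [← hs]
  have hG : MeasurableSet {t | |Rr al T t - z.re| ≤ 1 + 8 / s ∧ |Ri al T t - z.im| ≤ 1 + 8 / s} := by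
    have h1 : Measurable fun t => |Rr al T t - z.re| := ((Rr_meas al T).sub_const _).abs
    have h2 : Measurable fun t => |Ri al T t - z.im| := ((Ri_meas al T).sub_const _).abs
    exact (measurableSet_le h1 measurable_const).inter (measurableSet_le h2 measurable_const)
  have hPc : Continuous fun t => (dp Y α t).re := Complex.continuous_re.comp (dp_c Y α)
  have hPc' : Continuous fun t => (dp Y α t).im := Complex.continuous_im.comp (dp_c Y α)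
  have hB : MeasurableSet {t | 1 < |Rr al T t - (dp Y α t).re| ∨ 1 < |Ri al T t - (dp Y α t).im|} := by
    have h1 : Measurable fun t => |Rr al T t - (dp Y α t).re| := ((Rr_meas al T).sub hPc.measurable).abs
    have h2 : Measurable fun t => |Ri al T t - (dp Y α t).im| := ((Ri_meas al T).sub hPc'.measurable).abs
    exact (measurableSet_lt measurable_const h1).union (measurableSet_lt measurable_const h2)
  have hcov : ∀ t, t ∉ {t | |Rr al T t - z.re| ≤ 1 + 8 / s ∧ |Ri al T t - z.im| ≤ 1 + 8 / s} →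
      t ∉ {t | 1 < |Rr al T t - (dp Y α t).re| ∨ 1 < |Ri al T t - (dp Y α t).im|} → (8 / s) ^ 2 ≤ ‖dp Y α t - z‖ ^ 2 := by
    intro t h1 h2
    simp only [Set.mem_ofPred_eq, not_and_or, not_le] at h1
    simp only [Set.mem_ofPred_eq, not_or, not_lt] at h2
    refine pow_le_pow_left₀ (by positivity) ?_ 2
    rcases h1 with h1 | h1
    · have h3 := Complex.abs_re_le_norm (dp Y α t - z)
      rw [Complex.sub_re] at h3
      have h4 : |Rr al T t - z.re| ≤ |Rr al T t - (dp Y α t).re| + |(dp Y α t).re - z.re| := by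
        have : Rr al T t - z.re = (Rr al T t - (dp Y α t).re) + ((dp Y α t).re - z.re) := by ring
        rw [this]
        exact abs_add_le _ _
      linarith [h2.1]
    · have h3 := Complex.abs_im_le_norm (dp Y α t - z)
      rw [Complex.sub_im] at h3
      have h4 : |Ri al T t - z.im| ≤ |Ri al T t - (dp Y α t).im| + |(dp Y α t).im - z.im| := by
        have : Ri al T t - z.im = (Ri al T t - (dp Y α t).im) + ((dp Y α t).im - z.im) := by ring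
        rw [this]
        exact abs_add_le _ _
      linarith [h2.2]
  have hl0 : 0 < c₀ / (8 * C) := by positivity
  have hl0' : 0 < c₀ / (2 * C) := by positivity
  have hcore := core (T := T) hl0 hl0' (show 0 < 8 / s by positivity) (f2 := fun t => ‖FE K μ Y α t‖ ^ 2) (W := fun t => ‖dp N b t‖ ^ 2)
    (q := fun t => ‖dp Y α t - z‖ ^ 2) (hFc.norm.pow 2) (hBc.norm.pow 2) (((dp_c Y α).sub continuous_const).norm.pow 2)
    (fun t => sq_nonneg _) (fun t => sq_nonneg _) (fun t => sq_nonneg _) hS hG hB hST hcov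
  have e4 : ∀ t, (‖FE K μ Y α t‖ ^ 2) ^ 2 * ‖dp N b t‖ ^ 2 = ‖FE K μ Y α t‖ ^ 4 * ‖dp N b t‖ ^ 2 := fun t => by ring
  simp only [e4] at hcore
  obtain ⟨J, hJ⟩ : ∃ J, J = ∫ t in S ∩ {t | |Rr al T t - z.re| ≤ 1 + 8 / s ∧ |Ri al T t - z.im| ≤ 1 + 8 / s}, ‖dp N b t‖ ^ 2 := ⟨_, rfl⟩
  rw [← hJ] at hcore ⊢
  obtain ⟨I₀, hI₀⟩ : ∃ I₀, I₀ = ∫ t in Set.Icc T (2 * T), ‖FE K μ Y α t‖ ^ 2 * ‖dp N b t‖ ^ 2 := ⟨_, rfl⟩
  obtain ⟨I₂, hI₂⟩ : ∃ I₂, I₂ = ∫ t in Set.Icc T (2 * T), ‖FE K μ Y α t‖ ^ 2 * ‖dp Y α t - z‖ ^ 2 * ‖dp N b t‖ ^ 2 := ⟨_, rfl⟩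
  obtain ⟨I₄, hI₄⟩ : ∃ I₄, I₄ = ∫ t in Set.Icc T (2 * T), ‖FE K μ Y α t‖ ^ 4 * ‖dp N b t‖ ^ 2 := ⟨_, rfl⟩
  obtain ⟨I₅, hI₅⟩ : ∃ I₅, I₅ = ∫ t in Set.Icc T (2 * T) ∩ {t | 1 < |Rr al T t - (dp Y α t).re| ∨ 1 < |Ri al T t - (dp Y α t).im|}, ‖dp N b t‖ ^ 2 := ⟨_, rfl⟩
  obtain ⟨I₁, hI₁⟩ : ∃ I₁, I₁ = ∫ t in S, ‖FE K μ Y α t‖ ^ 2 * ‖dp N b t‖ ^ 2 := ⟨_, rfl⟩
  rw [← hI₁, ← hI₂, ← hI₄, ← hI₅] at hcore
  rw [← hI₁] at hth1
  rw [← hI₀] at a1 a2
  rw [← hI₂] at hT2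
  rw [← hI₄] at hT3
  rw [← hI₅] at hbad
  -- numerical work
  have hEX : X ≤ E * X := by
    have := mul_le_mul_of_nonneg_right hE1 hX0
    linarith
  have b1 : 3 / 4 * (c₀ * (E * X)) ≤ I₁ := by
    have h1 : I₀ ≤ 9 / 8 * X₁ := by linarith
    have h2 : 7 / 8 * (E * X) ≤ I₀ := by linarith
    have h3 : 7 / 9 * (E * X) ≤ X₁ := by linarith
    have h4 := mul_le_mul_of_nonneg_left h3 hc₀.le
    have h5 : 0 ≤ c₀ * (E * X) := mul_nonneg hc₀.le (mul_nonneg (by linarith) hX0)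
    linarith
  have b2 : 1 / (8 / s) ^ 2 * I₂ ≤ 1 / 8 * (c₀ * (E * X)) := by
    have h1 : V * (E + x ^ (K + 1) / (K.factorial : ℝ)) + 1 / 8 ≤ 7 * E := by
      have h2 : V * (E + x ^ (K + 1) / (K.factorial : ℝ)) ≤ 3 * (E + 1) :=
        mul_le_mul hV3 (by linarith) (by positivity) (by norm_num)
      linarith
    have h3 : I₂ ≤ 7 * E * X := hT2.trans (mul_le_mul_of_nonneg_right h1 hX0)
    have h4 : 1 / (8 / s) ^ 2 = c₀ / 64 := by
      rw [div_pow, hs2]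
      field_simp
      norm_num
    rw [h4]
    have h5 := mul_le_mul_of_nonneg_left h3 (show 0 ≤ c₀ / 64 by positivity)
    have h6 : 0 ≤ c₀ * (E * X) := mul_nonneg hc₀.le (mul_nonneg (by linarith) hX0)
    have h7 : c₀ / 64 * (7 * E * X) = 7 / 64 * (c₀ * (E * X)) := by ring
    linarith
  have b3 : (c₀ / (8 * C) + c₀ / (2 * C)) / 2 * I₄ ≤ 5 / 16 * (c₀ * X) := by
    have h1 := mul_le_mul_of_nonneg_left hT3 (show 0 ≤ (c₀ / (8 * C) + c₀ / (2 * C)) / 2 by positivity)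
    refine h1.trans (le_of_eq ?_)
    field_simp
    ring
  have b4 : 1 / (2 * (c₀ / (8 * C))) * I₅ ≤ 1 / 16 * (c₀ * X) := by
    have h1 : I₅ ≤ c₀ ^ 2 / (64 * C) * X := hbad.trans (mul_le_mul_of_nonneg_right hη2 hX0)
    have h2 := mul_le_mul_of_nonneg_left h1 (show 0 ≤ 1 / (2 * (c₀ / (8 * C))) by positivity)
    refine h2.trans (le_of_eq ?_)
    field_simp
    ring
  have b5 : c₀ * X ≤ c₀ * (E * X) := mul_le_mul_of_nonneg_left hEX hc₀.le
  have b6 : 1 / 4 * (c₀ * X) ≤ 1 / (2 * (c₀ / (2 * C))) * J := by linarith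
  have b7 := mul_le_mul_of_nonneg_left b6 (show 0 ≤ c₀ / C by positivity)
  have b8 : c₀ / C * (1 / 4 * (c₀ * X)) = c₀ ^ 2 / (4 * C) * X := by ring
  have b9 : c₀ / C * (1 / (2 * (c₀ / (2 * C))) * J) = J := by
    field_simp
  linarith

end

end Pool.Agent.H4.MT
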